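import Mathlib

open MeasureTheory Filter Topology Set
open scoped ContDiff NNReal ENNReal Laplacian

namespace Pool.Agent.Results.MP_4efd05_mp.PositiveTrap

noncomputable section

/-! ### Definitions used in the statement -/

/-- The Japanese bracket `⟨x⟩ = (1 + |x|²)^{1/2}`. -/
def jap {n : ℕ} (x : EuclideanSpace ℝ (Fin n)) : ℝ := Real.sqrt (1 + ‖x‖ ^ 2)

/-- Admissible potentials on `ℝⁿ × ℝ`: smooth, bounded with all derivatives, nonnegative,
not identically zero, and decaying in space faster than any power, uniformly in time. -/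
structure Admissible (n : ℕ) (V : EuclideanSpace ℝ (Fin n) × ℝ → ℝ) : Prop where
  smooth : ContDiff ℝ ∞ V
  bounded : ∀ k : ℕ, ∃ C : ℝ, ∀ z, ‖iteratedFDeriv ℝ k V z‖ ≤ C
  nonneg : ∀ z, 0 ≤ V z
  ne_zero : ∃ z, V z ≠ 0
  localized : ∀ N : ℕ, ∃ C : ℝ, ∀ x t, |V (x, t)| ≤ C / jap x ^ N

/-- `ψ` is a (smooth) solution in `C(ℝ; L²)` of `i ∂ₜ ψ = -Δ ψ + V(x,t) ψ`, for all times. -/
structure IsSolution (n : ℕ) (V : EuclideanSpace ℝ (Fin n) × ℝ → ℝ)
    (ψ : ℝ → EuclideanSpace ℝ (Fin n) → ℂ) : Prop where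
  smooth : ContDiff ℝ ∞ (fun z : EuclideanSpace ℝ (Fin n) × ℝ => ψ z.2 z.1)
  memLp : ∀ t, MemLp (ψ t) 2 volume
  continuous : ∀ t₀, Tendsto (fun t => eLpNorm (ψ t - ψ t₀) 2 volume) (𝓝 t₀) (𝓝 0)
  equation : ∀ t x, Complex.I * deriv (fun s => ψ s x) t
    = -(Δ (ψ t)) x + (V (x, t) : ℂ) * ψ t x

/-- A bound state: a nonzero solution with `sup_t ‖⟨x⟩^δ ψ(t)‖_{L²} < ∞` for some `δ > 0`. -/
structure IsBoundState (n : ℕ) (V : EuclideanSpace ℝ (Fin n) × ℝ → ℝ)
    (ψ : ℝ → EuclideanSpace ℝ (Fin n) → ℂ) : Prop where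
  solution : IsSolution n V ψ
  nonzero : ∃ t, ¬ (ψ t =ᵐ[volume] 0)
  localized : ∃ δ : ℝ, 0 < δ ∧ ∃ C : ℝ≥0, ∀ t,
    eLpNorm (fun x => ((jap x ^ δ : ℝ) : ℂ) * ψ t x) 2 volume ≤ C


section
def bump (y : ℝ) : ℝ := Real.smoothTransition (2 - y) * Real.smoothTransition (2 + y)

lemma bump_smooth : ContDiff ℝ ∞ bump := by
  unfold bump
  exact (Real.smoothTransition.contDiff.comp (contDiff_const.sub contDiff_id)).mul
    (Real.smoothTransition.contDiff.comp (contDiff_const.add contDiff_id))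

lemma bump_one {y : ℝ} (h : |y| ≤ 1) : bump y = 1 := by
  have := abs_le.1 h
  unfold bump
  rw [Real.smoothTransition.one_of_one_le (by linarith), Real.smoothTransition.one_of_one_le (by linarith)]
  norm_num

lemma bump_zero {y : ℝ} (h : 2 ≤ |y|) : bump y = 0 := by
  unfold bump
  rcases le_abs.1 h with h | h
  · rw [Real.smoothTransition.zero_of_nonpos (by linarith : 2 - y ≤ 0)]; simp
  · rw [Real.smoothTransition.zero_of_nonpos (by linarith : 2 + y ≤ 0)]; simp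

lemma bump_nonneg (y : ℝ) : 0 ≤ bump y :=
  mul_nonneg (Real.smoothTransition.nonneg _) (Real.smoothTransition.nonneg _)

lemma bump_le_one (y : ℝ) : bump y ≤ 1 :=
  mul_le_one₀ (Real.smoothTransition.le_one _) (Real.smoothTransition.nonneg _) (Real.smoothTransition.le_one _)

lemma bump_neg (y : ℝ) : bump (-y) = bump y := by
  unfold bump; rw [mul_comm]; congr 2 <;> ring

def E1 (y : ℝ) : ℝ := y * bump y
def E2 (y : ℝ) : ℝ := -bump (y / 3)

lemma E1_smooth : ContDiff ℝ ∞ E1 := contDiff_id.mul bump_smooth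
lemma E2_smooth : ContDiff ℝ ∞ E2 := (bump_smooth.comp (contDiff_id.div_const 3)).neg

lemma smooth_deriv {f : ℝ → ℝ} (h : ContDiff ℝ ∞ f) : ContDiff ℝ ∞ (deriv f) :=
  (contDiff_infty_iff_deriv.1 h).2

lemma smooth_hasDerivAt {f : ℝ → ℝ} (h : ContDiff ℝ ∞ f) (y : ℝ) : HasDerivAt f (deriv f y) y :=
  ((contDiff_infty_iff_deriv.1 h).1 y).hasDerivAt

lemma E1_compact : HasCompactSupport E1 := by
  apply HasCompactSupport.of_support_subset_isCompact (isCompact_Icc (a := -2) (b := 2))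
  intro y hy
  by_contra h
  apply hy
  have : 2 ≤ |y| := by
    rw [mem_Icc, not_and_or] at h
    rcases h with h | h
    · exact le_abs.2 (Or.inr (by linarith))
    · exact le_abs.2 (Or.inl (by linarith))
  simp [E1, bump_zero this]

lemma E2_compact : HasCompactSupport E2 := by
  apply HasCompactSupport.of_support_subset_isCompact (isCompact_Icc (a := -6) (b := 6))
  intro y hy
  by_contra h
  apply hy
  have : 2 ≤ |y / 3| := by
    rw [mem_Icc, not_and_or] at h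
    rcases h with h | h
    · exact le_abs.2 (Or.inr (by linarith))
    · exact le_abs.2 (Or.inl (by linarith))
  simp [E2, bump_zero this]

end

section
def e1 : ℝ → ℝ := deriv E1
def f1 : ℝ → ℝ := deriv e1
def g1 : ℝ → ℝ := deriv f1
def h1 : ℝ → ℝ := deriv g1
def e2 : ℝ → ℝ := deriv E2
def f2 : ℝ → ℝ := deriv e2
def g2 : ℝ → ℝ := deriv f2
def h2 : ℝ → ℝ := deriv g2

lemma e1_smooth : ContDiff ℝ ∞ e1 := smooth_deriv E1_smooth
lemma f1_smooth : ContDiff ℝ ∞ f1 := smooth_deriv e1_smooth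
lemma g1_smooth : ContDiff ℝ ∞ g1 := smooth_deriv f1_smooth
lemma h1_smooth : ContDiff ℝ ∞ h1 := smooth_deriv g1_smooth
lemma e2_smooth : ContDiff ℝ ∞ e2 := smooth_deriv E2_smooth
lemma f2_smooth : ContDiff ℝ ∞ f2 := smooth_deriv e2_smooth
lemma g2_smooth : ContDiff ℝ ∞ g2 := smooth_deriv f2_smooth
lemma h2_smooth : ContDiff ℝ ∞ h2 := smooth_deriv g2_smooth

lemma hE1 (y : ℝ) : HasDerivAt E1 (e1 y) y := smooth_hasDerivAt E1_smooth y
lemma he1 (y : ℝ) : HasDerivAt e1 (f1 y) y := smooth_hasDerivAt e1_smooth y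
lemma hf1 (y : ℝ) : HasDerivAt f1 (g1 y) y := smooth_hasDerivAt f1_smooth y
lemma hg1 (y : ℝ) : HasDerivAt g1 (h1 y) y := smooth_hasDerivAt g1_smooth y
lemma hE2 (y : ℝ) : HasDerivAt E2 (e2 y) y := smooth_hasDerivAt E2_smooth y
lemma he2 (y : ℝ) : HasDerivAt e2 (f2 y) y := smooth_hasDerivAt e2_smooth y
lemma hf2 (y : ℝ) : HasDerivAt f2 (g2 y) y := smooth_hasDerivAt f2_smooth y
lemma hg2 (y : ℝ) : HasDerivAt g2 (h2 y) y := smooth_hasDerivAt g2_smooth y

lemma exists_bound1 {f : ℝ → ℝ} (h : ContDiff ℝ ∞ f) (hc : HasCompactSupport f) :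
    ∃ C, ∀ y, |f y| ≤ C := by
  obtain ⟨C, hC⟩ := hc.exists_bound_of_continuous h.continuous
  exact ⟨C, hC⟩

/-- a common bound for all the profile functions -/
lemma exists_M : ∃ M : ℝ, 1 ≤ M ∧ ∀ y, |E1 y| ≤ M ∧ |e1 y| ≤ M ∧ |f1 y| ≤ M ∧ |g1 y| ≤ M ∧ |h1 y| ≤ M
    ∧ |E2 y| ≤ M ∧ |e2 y| ≤ M ∧ |f2 y| ≤ M ∧ |g2 y| ≤ M ∧ |h2 y| ≤ M := by
  have c1 : HasCompactSupport E1 := E1_compact
  have c2 : HasCompactSupport e1 := c1.deriv
  have c3 : HasCompactSupport f1 := c2.deriv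
  have c4 : HasCompactSupport g1 := c3.deriv
  have c5 : HasCompactSupport h1 := c4.deriv
  have d1 : HasCompactSupport E2 := E2_compact
  have d2 : HasCompactSupport e2 := d1.deriv
  have d3 : HasCompactSupport f2 := d2.deriv
  have d4 : HasCompactSupport g2 := d3.deriv
  have d5 : HasCompactSupport h2 := d4.deriv
  obtain ⟨C1, hC1⟩ := exists_bound1 E1_smooth c1
  obtain ⟨C2, hC2⟩ := exists_bound1 e1_smooth c2
  obtain ⟨C3, hC3⟩ := exists_bound1 f1_smooth c3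
  obtain ⟨C4, hC4⟩ := exists_bound1 g1_smooth c4
  obtain ⟨C5, hC5⟩ := exists_bound1 h1_smooth c5
  obtain ⟨D1, hD1⟩ := exists_bound1 E2_smooth d1
  obtain ⟨D2, hD2⟩ := exists_bound1 e2_smooth d2
  obtain ⟨D3, hD3⟩ := exists_bound1 f2_smooth d3
  obtain ⟨D4, hD4⟩ := exists_bound1 g2_smooth d4
  obtain ⟨D5, hD5⟩ := exists_bound1 h2_smooth d5
  have n1 := (abs_nonneg _).trans (hC1 0)
  have n2 := (abs_nonneg _).trans (hC2 0)
  have n3 := (abs_nonneg _).trans (hC3 0)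
  have n4 := (abs_nonneg _).trans (hC4 0)
  have n5 := (abs_nonneg _).trans (hC5 0)
  have m1 := (abs_nonneg _).trans (hD1 0)
  have m2 := (abs_nonneg _).trans (hD2 0)
  have m3 := (abs_nonneg _).trans (hD3 0)
  have m4 := (abs_nonneg _).trans (hD4 0)
  have m5 := (abs_nonneg _).trans (hD5 0)
  refine ⟨1 + C1 + C2 + C3 + C4 + C5 + D1 + D2 + D3 + D4 + D5, by linarith, fun y => ?_⟩
  have := hC1 y
  have := hC2 y
  have := hC3 y
  have := hC4 y
  have := hC5 y
  have := hD1 y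
  have := hD2 y
  have := hD3 y
  have := hD4 y
  have := hD5 y
  refine ⟨?_, ?_, ?_, ?_, ?_, ?_, ?_, ?_, ?_, ?_⟩ <;> linarith

/-- near the core: `E1 y = y`. -/
lemma core1 {y : ℝ} (h : |y| < 1) : E1 y = y ∧ e1 y = 1 ∧ f1 y = 0 ∧ g1 y = 0 ∧ h1 y = 0 := by
  have hopen : ∀ᶠ z in 𝓝 y, |z| < 1 := (continuous_abs.isOpen_preimage _ isOpen_Iio).mem_nhds h
  have key : ∀ᶠ z in 𝓝 y, E1 z = z := by
    filter_upwards [hopen] with z hz
    simp [E1, bump_one hz.le]
  have k1 : ∀ z, |z| < 1 → e1 z = 1 := by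
    intro z hz
    have hopen : ∀ᶠ z in 𝓝 z, |z| < 1 := (continuous_abs.isOpen_preimage _ isOpen_Iio).mem_nhds hz
    have key : E1 =ᶠ[𝓝 z] id := by
      filter_upwards [hopen] with z hz
      simp [E1, bump_one hz.le]
    rw [e1, key.deriv_eq]; simp
  have k2 : ∀ z, |z| < 1 → f1 z = 0 := by
    intro z hz
    have hopen : ∀ᶠ z in 𝓝 z, |z| < 1 := (continuous_abs.isOpen_preimage _ isOpen_Iio).mem_nhds hz
    have key : e1 =ᶠ[𝓝 z] fun _ => 1 := by
      filter_upwards [hopen] with z hz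
      exact k1 z hz
    rw [f1, key.deriv_eq]; simp
  have k3 : ∀ z, |z| < 1 → g1 z = 0 := by
    intro z hz
    have hopen : ∀ᶠ z in 𝓝 z, |z| < 1 := (continuous_abs.isOpen_preimage _ isOpen_Iio).mem_nhds hz
    have key : f1 =ᶠ[𝓝 z] fun _ => 0 := by
      filter_upwards [hopen] with z hz
      exact k2 z hz
    rw [g1, key.deriv_eq]; simp
  have k4 : ∀ z, |z| < 1 → h1 z = 0 := by
    intro z hz
    have hopen : ∀ᶠ z in 𝓝 z, |z| < 1 := (continuous_abs.isOpen_preimage _ isOpen_Iio).mem_nhds hz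
    have key : g1 =ᶠ[𝓝 z] fun _ => 0 := by
      filter_upwards [hopen] with z hz
      exact k3 z hz
    rw [h1, key.deriv_eq]; simp
  exact ⟨key.self_of_nhds, k1 y h, k2 y h, k3 y h, k4 y h⟩

lemma far1 {y : ℝ} (h : 2 < |y|) : E1 y = 0 ∧ e1 y = 0 ∧ f1 y = 0 ∧ g1 y = 0 ∧ h1 y = 0 := by
  have hopen : ∀ z : ℝ, 2 < |z| → ∀ᶠ z in 𝓝 z, 2 < |z| := fun z hz =>
    (continuous_abs.isOpen_preimage _ isOpen_Ioi).mem_nhds hz
  have k0 : ∀ z, 2 < |z| → E1 z = 0 := fun z hz => by simp [E1, bump_zero hz.le]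
  have k1 : ∀ z, 2 < |z| → e1 z = 0 := by
    intro z hz
    have key : E1 =ᶠ[𝓝 z] fun _ => 0 := by
      filter_upwards [hopen z hz] with z hz
      exact k0 z hz
    rw [e1, key.deriv_eq]; simp
  have k2 : ∀ z, 2 < |z| → f1 z = 0 := by
    intro z hz
    have key : e1 =ᶠ[𝓝 z] fun _ => 0 := by
      filter_upwards [hopen z hz] with z hz
      exact k1 z hz
    rw [f1, key.deriv_eq]; simp
  have k3 : ∀ z, 2 < |z| → g1 z = 0 := by
    intro z hz
    have key : f1 =ᶠ[𝓝 z] fun _ => 0 := by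
      filter_upwards [hopen z hz] with z hz
      exact k2 z hz
    rw [g1, key.deriv_eq]; simp
  have k4 : ∀ z, 2 < |z| → h1 z = 0 := by
    intro z hz
    have key : g1 =ᶠ[𝓝 z] fun _ => 0 := by
      filter_upwards [hopen z hz] with z hz
      exact k3 z hz
    rw [h1, key.deriv_eq]; simp
  exact ⟨k0 y h, k1 y h, k2 y h, k3 y h, k4 y h⟩

lemma abs_div_three (z : ℝ) : |z / 3| = |z| / 3 := by rw [abs_div]; norm_num

lemma core2 {y : ℝ} (h : |y| < 3) : E2 y = -1 ∧ e2 y = 0 ∧ f2 y = 0 ∧ g2 y = 0 ∧ h2 y = 0 := by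
  have hopen : ∀ z : ℝ, |z| < 3 → ∀ᶠ z in 𝓝 z, |z| < 3 := fun z hz =>
    (continuous_abs.isOpen_preimage _ isOpen_Iio).mem_nhds hz
  have k0 : ∀ z, |z| < 3 → E2 z = -1 := fun z hz => by
    have : |z / 3| ≤ 1 := by rw [abs_div_three]; linarith
    simp [E2, bump_one this]
  have k1 : ∀ z, |z| < 3 → e2 z = 0 := by
    intro z hz
    have key : E2 =ᶠ[𝓝 z] fun _ => -1 := by
      filter_upwards [hopen z hz] with z hz
      exact k0 z hz
    rw [e2, key.deriv_eq]; simp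
  have k2 : ∀ z, |z| < 3 → f2 z = 0 := by
    intro z hz
    have key : e2 =ᶠ[𝓝 z] fun _ => 0 := by
      filter_upwards [hopen z hz] with z hz
      exact k1 z hz
    rw [f2, key.deriv_eq]; simp
  have k3 : ∀ z, |z| < 3 → g2 z = 0 := by
    intro z hz
    have key : f2 =ᶠ[𝓝 z] fun _ => 0 := by
      filter_upwards [hopen z hz] with z hz
      exact k2 z hz
    rw [g2, key.deriv_eq]; simp
  have k4 : ∀ z, |z| < 3 → h2 z = 0 := by
    intro z hz
    have key : g2 =ᶠ[𝓝 z] fun _ => 0 := by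
      filter_upwards [hopen z hz] with z hz
      exact k3 z hz
    rw [h2, key.deriv_eq]; simp
  exact ⟨k0 y h, k1 y h, k2 y h, k3 y h, k4 y h⟩

lemma far2 {y : ℝ} (h : 6 < |y|) : E2 y = 0 ∧ e2 y = 0 ∧ f2 y = 0 ∧ g2 y = 0 ∧ h2 y = 0 := by
  have hopen : ∀ z : ℝ, 6 < |z| → ∀ᶠ z in 𝓝 z, 6 < |z| := fun z hz =>
    (continuous_abs.isOpen_preimage _ isOpen_Ioi).mem_nhds hz
  have k0 : ∀ z, 6 < |z| → E2 z = 0 := fun z hz => by
    have : 2 ≤ |z / 3| := by rw [abs_div_three]; linarith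
    simp [E2, bump_zero this]
  have k1 : ∀ z, 6 < |z| → e2 z = 0 := by
    intro z hz
    have key : E2 =ᶠ[𝓝 z] fun _ => 0 := by
      filter_upwards [hopen z hz] with z hz
      exact k0 z hz
    rw [e2, key.deriv_eq]; simp
  have k2 : ∀ z, 6 < |z| → f2 z = 0 := by
    intro z hz
    have key : e2 =ᶠ[𝓝 z] fun _ => 0 := by
      filter_upwards [hopen z hz] with z hz
      exact k1 z hz
    rw [f2, key.deriv_eq]; simp
  have k3 : ∀ z, 6 < |z| → g2 z = 0 := by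
    intro z hz
    have key : f2 =ᶠ[𝓝 z] fun _ => 0 := by
      filter_upwards [hopen z hz] with z hz
      exact k2 z hz
    rw [g2, key.deriv_eq]; simp
  have k4 : ∀ z, 6 < |z| → h2 z = 0 := by
    intro z hz
    have key : g2 =ᶠ[𝓝 z] fun _ => 0 := by
      filter_upwards [hopen z hz] with z hz
      exact k3 z hz
    rw [h2, key.deriv_eq]; simp
  exact ⟨k0 y h, k1 y h, k2 y h, k3 y h, k4 y h⟩

/-- the two flow profiles have disjoint supports -/
lemma disj (y : ℝ) : (e1 y = 0 ∧ f1 y = 0) ∨ (e2 y = 0 ∧ f2 y = 0) := by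
  rcases lt_or_ge (|y|) 3 with h | h
  · right; exact ⟨(core2 h).2.1, (core2 h).2.2.1⟩
  · left
    have := far1 (y := y) (by linarith)
    exact ⟨this.2.1, this.2.2.1⟩

/-! ### the time dependent flow -/

variable (A w : ℝ)

def aa (t : ℝ) : ℝ := A * Real.sin (w * t)
def aa' (t : ℝ) : ℝ := A * w * Real.cos (w * t)
def aa'' (t : ℝ) : ℝ := -(A * w ^ 2 * Real.sin (w * t))
def cc (t : ℝ) : ℝ := -(A ^ 2 / 16 * Real.cos (2 * w * t))
def cc' (t : ℝ) : ℝ := A ^ 2 / 8 * w * Real.sin (2 * w * t)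
def cc'' (t : ℝ) : ℝ := A ^ 2 / 4 * w ^ 2 * Real.cos (2 * w * t)

lemma h_lin (w t : ℝ) : HasDerivAt (fun s => w * s) w t := by
  simpa using (hasDerivAt_id t).const_mul w

lemma haa (t : ℝ) : HasDerivAt (aa A w) (aa' A w t) t := by
  have := ((Real.hasDerivAt_sin (w * t)).comp t (h_lin w t)).const_mul A
  refine this.congr_deriv ?_
  unfold aa'; ring

lemma haa' (t : ℝ) : HasDerivAt (aa' A w) (aa'' A w t) t := by
  have := ((Real.hasDerivAt_cos (w * t)).comp t (h_lin w t)).const_mul (A * w)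
  refine this.congr_deriv ?_
  unfold aa''; ring

lemma hcc (t : ℝ) : HasDerivAt (cc A w) (cc' A w t) t := by
  have := (((Real.hasDerivAt_cos (2 * w * t)).comp t (h_lin (2 * w) t)).const_mul (A ^ 2 / 16)).neg
  refine this.congr_deriv ?_
  unfold cc'; ring

lemma hcc' (t : ℝ) : HasDerivAt (cc' A w) (cc'' A w t) t := by
  have := ((Real.hasDerivAt_sin (2 * w * t)).comp t (h_lin (2 * w) t)).const_mul (A ^ 2 / 8 * w)
  refine this.congr_deriv ?_
  unfold cc''; ring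

def XX (y t : ℝ) : ℝ := y + aa A w t * e1 y + cc A w t * e2 y
def Xt (y t : ℝ) : ℝ := aa' A w t * e1 y + cc' A w t * e2 y
def JJ (y t : ℝ) : ℝ := 1 + aa A w t * f1 y + cc A w t * f2 y
def Jt (y t : ℝ) : ℝ := aa' A w t * f1 y + cc' A w t * f2 y
def Jy (y t : ℝ) : ℝ := aa A w t * g1 y + cc A w t * g2 y
def Jyy (y t : ℝ) : ℝ := aa A w t * h1 y + cc A w t * h2 y

lemma aa_smooth : ContDiff ℝ ∞ (aa A w) :=
  contDiff_const.mul (Real.contDiff_sin.comp (contDiff_const.mul contDiff_id))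
lemma aa'_smooth : ContDiff ℝ ∞ (aa' A w) :=
  contDiff_const.mul (Real.contDiff_cos.comp (contDiff_const.mul contDiff_id))
lemma aa''_smooth : ContDiff ℝ ∞ (aa'' A w) :=
  (contDiff_const.mul (Real.contDiff_sin.comp (contDiff_const.mul contDiff_id))).neg
lemma cc_smooth : ContDiff ℝ ∞ (cc A w) :=
  (contDiff_const.mul (Real.contDiff_cos.comp (contDiff_const.mul contDiff_id))).neg
lemma cc'_smooth : ContDiff ℝ ∞ (cc' A w) :=
  contDiff_const.mul (Real.contDiff_sin.comp (contDiff_const.mul contDiff_id))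
lemma cc''_smooth : ContDiff ℝ ∞ (cc'' A w) :=
  contDiff_const.mul (Real.contDiff_cos.comp (contDiff_const.mul contDiff_id))

end

section
variable (A w : ℝ)

lemma smooth_fst {f : ℝ → ℝ} (h : ContDiff ℝ ∞ f) : ContDiff ℝ ∞ (fun p : ℝ × ℝ => f p.1) :=
  h.comp contDiff_fst
lemma smooth_snd {f : ℝ → ℝ} (h : ContDiff ℝ ∞ f) : ContDiff ℝ ∞ (fun p : ℝ × ℝ => f p.2) :=
  h.comp contDiff_snd

lemma XX_smooth : ContDiff ℝ ∞ (fun p : ℝ × ℝ => XX A w p.1 p.2) :=
  (contDiff_fst.add ((smooth_snd (aa_smooth A w)).mul (smooth_fst e1_smooth))).add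
    ((smooth_snd (cc_smooth A w)).mul (smooth_fst e2_smooth))
lemma Xt_smooth : ContDiff ℝ ∞ (fun p : ℝ × ℝ => Xt A w p.1 p.2) :=
  ((smooth_snd (aa'_smooth A w)).mul (smooth_fst e1_smooth)).add
    ((smooth_snd (cc'_smooth A w)).mul (smooth_fst e2_smooth))
lemma JJ_smooth : ContDiff ℝ ∞ (fun p : ℝ × ℝ => JJ A w p.1 p.2) :=
  (contDiff_const.add ((smooth_snd (aa_smooth A w)).mul (smooth_fst f1_smooth))).add
    ((smooth_snd (cc_smooth A w)).mul (smooth_fst f2_smooth))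
lemma Jy_smooth : ContDiff ℝ ∞ (fun p : ℝ × ℝ => Jy A w p.1 p.2) :=
  ((smooth_snd (aa_smooth A w)).mul (smooth_fst g1_smooth)).add
    ((smooth_snd (cc_smooth A w)).mul (smooth_fst g2_smooth))
lemma Jyy_smooth : ContDiff ℝ ∞ (fun p : ℝ × ℝ => Jyy A w p.1 p.2) :=
  ((smooth_snd (aa_smooth A w)).mul (smooth_fst h1_smooth)).add
    ((smooth_snd (cc_smooth A w)).mul (smooth_fst h2_smooth))

/-- derivative of `X` along a curve `y(s)` at fixed `t`. -/
lemma hXX_y (y t : ℝ) : HasDerivAt (fun z => XX A w z t) (JJ A w y t) y := by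
  have := ((hasDerivAt_id y).add ((he1 y).const_mul (aa A w t))).add ((he2 y).const_mul (cc A w t))
  exact this

lemma hXX_t (y t : ℝ) : HasDerivAt (fun s => XX A w y s) (Xt A w y t) t := by
  have := (((hasDerivAt_const t y).add ((haa A w t).mul_const (e1 y)))).add
    ((hcc A w t).mul_const (e2 y))
  refine this.congr_deriv ?_
  unfold Xt; ring

lemma hXX_f (p : ℝ × ℝ) : HasFDerivAt (fun p : ℝ × ℝ => XX A w p.1 p.2)
    (JJ A w p.1 p.2 • ContinuousLinearMap.fst ℝ ℝ ℝ + Xt A w p.1 p.2 • ContinuousLinearMap.snd ℝ ℝ ℝ) p := by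
  have hd : DifferentiableAt ℝ (fun p : ℝ × ℝ => XX A w p.1 p.2) p :=
    ((XX_smooth A w).differentiable (by simp)) p
  have h := hd.hasFDerivAt
  have h1 : HasDerivAt (fun z => XX A w z p.2) (fderiv ℝ (fun p : ℝ × ℝ => XX A w p.1 p.2) p (1, 0)) p.1 := by
    have hc : HasDerivAt (fun z : ℝ => (z, p.2)) ((1 : ℝ), (0 : ℝ)) p.1 :=
      (hasDerivAt_id p.1).prodMk (hasDerivAt_const p.1 p.2)
    exact h.comp_hasDerivAt p.1 hc
  have h2 : HasDerivAt (fun s => XX A w p.1 s) (fderiv ℝ (fun p : ℝ × ℝ => XX A w p.1 p.2) p (0, 1)) p.2 := by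
    have hc : HasDerivAt (fun s : ℝ => (p.1, s)) ((0 : ℝ), (1 : ℝ)) p.2 :=
      (hasDerivAt_const p.2 p.1).prodMk (hasDerivAt_id p.2)
    exact h.comp_hasDerivAt p.2 hc
  have e1 := h1.unique (hXX_y A w p.1 p.2)
  have e2 := h2.unique (hXX_t A w p.1 p.2)
  convert h using 1
  ext
  · simp [← e1]
  · simp [← e2]

def FF (p : ℝ × ℝ) : ℝ × ℝ := (XX A w p.1 p.2, p.2)

lemma FF_smooth : ContDiff ℝ ∞ (FF A w) := (XX_smooth A w).prodMk contDiff_snd

def dF (j x : ℝ) (hj : j ≠ 0) : (ℝ × ℝ) ≃L[ℝ] (ℝ × ℝ) :=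
  ContinuousLinearEquiv.equivOfInverse
    ((j • ContinuousLinearMap.fst ℝ ℝ ℝ + x • ContinuousLinearMap.snd ℝ ℝ ℝ).prod
      (ContinuousLinearMap.snd ℝ ℝ ℝ))
    ((j⁻¹ • ContinuousLinearMap.fst ℝ ℝ ℝ - (x / j) • ContinuousLinearMap.snd ℝ ℝ ℝ).prod
      (ContinuousLinearMap.snd ℝ ℝ ℝ))
    (by
      rintro ⟨u, v⟩
      simp only [ContinuousLinearMap.prod_apply, add_apply,
        sub_apply, smul_apply, ContinuousLinearMap.coe_fst',
        ContinuousLinearMap.coe_snd', smul_eq_mul, Prod.mk.injEq, and_true]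
      field_simp; ring)
    (by
      rintro ⟨u, v⟩
      simp only [ContinuousLinearMap.prod_apply, add_apply,
        sub_apply, smul_apply, ContinuousLinearMap.coe_fst',
        ContinuousLinearMap.coe_snd', smul_eq_mul, Prod.mk.injEq, and_true]
      field_simp; ring)

variable {A w}

lemma hFF (hJ : ∀ y t, 1 / 2 ≤ JJ A w y t) (p : ℝ × ℝ) :
    HasFDerivAt (FF A w) ((dF (JJ A w p.1 p.2) (Xt A w p.1 p.2)
      (by have := hJ p.1 p.2; linarith) : (ℝ × ℝ) ≃L[ℝ] (ℝ × ℝ)) : (ℝ × ℝ) →L[ℝ] (ℝ × ℝ)) p :=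
  (hXX_f A w p).prodMk hasFDerivAt_snd

lemma XX_strictMono (hJ : ∀ y t, 1 / 2 ≤ JJ A w y t) (t : ℝ) : StrictMono (fun y => XX A w y t) := by
  apply strictMono_of_deriv_pos
  intro y
  rw [(hXX_y A w y t).deriv]
  have := hJ y t; linarith

lemma XX_surj (hX : ∀ y t, |XX A w y t - y| ≤ 1) (t : ℝ) :
    Function.Surjective (fun y => XX A w y t) := by
  apply Continuous.surjective
  · exact (XX_smooth A w).continuous.comp (by fun_prop : Continuous fun y : ℝ => (y, t))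
  · refine tendsto_atTop_mono (fun y => ?_) (tendsto_atTop_add_const_right _ (-1) tendsto_id)
    have := (abs_le.1 (hX y t)).1
    simp only [id]; linarith
  · refine tendsto_atBot_mono (fun y => ?_) (tendsto_atBot_add_const_right _ 1 tendsto_id)
    have := (abs_le.1 (hX y t)).2
    simp only [id]; linarith

lemma FF_bij (hJ : ∀ y t, 1 / 2 ≤ JJ A w y t) (hX : ∀ y t, |XX A w y t - y| ≤ 1) :
    Function.Bijective (FF A w) := by
  constructor
  · rintro ⟨y, t⟩ ⟨y', t'⟩ h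
    simp only [FF, Prod.mk.injEq] at h
    obtain ⟨h1, rfl⟩ := h
    have := (XX_strictMono hJ t).injective h1
    rw [this]
  · rintro ⟨x, t⟩
    obtain ⟨y, hy⟩ := XX_surj hX t x
    exact ⟨(y, t), by simp only [FF]; rw [← hy]⟩

lemma FF_open (hJ : ∀ y t, 1 / 2 ≤ JJ A w y t) : IsOpenMap (FF A w) := by
  apply isOpenMap_of_hasStrictFDerivAt_equiv (𝕜 := ℝ)
    (f' := fun p => dF (JJ A w p.1 p.2) (Xt A w p.1 p.2) (by have := hJ p.1 p.2; linarith))
  intro p
  exact (FF_smooth A w).contDiffAt.hasStrictFDerivAt' (hFF hJ p) (by simp)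

def FH (hJ : ∀ y t, 1 / 2 ≤ JJ A w y t) (hX : ∀ y t, |XX A w y t - y| ≤ 1) : (ℝ × ℝ) ≃ₜ (ℝ × ℝ) :=
  (Equiv.ofBijective (FF A w) (FF_bij hJ hX)).toHomeomorphOfContinuousOpen
    (FF_smooth A w).continuous (FF_open hJ)

lemma FH_apply (hJ : ∀ y t, 1 / 2 ≤ JJ A w y t) (hX : ∀ y t, |XX A w y t - y| ≤ 1) (p : ℝ × ℝ) :
    FH hJ hX p = FF A w p := rfl

lemma FH_symm_smooth (hJ : ∀ y t, 1 / 2 ≤ JJ A w y t) (hX : ∀ y t, |XX A w y t - y| ≤ 1) :
    ContDiff ℝ ∞ (FH hJ hX).symm := by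
  apply (FH hJ hX).contDiff_symm
    (f₀' := fun p => dF (JJ A w p.1 p.2) (Xt A w p.1 p.2) (by have := hJ p.1 p.2; linarith))
  · intro p; exact hFF hJ p
  · exact FF_smooth A w

/-- the inverse label map -/
def YY (hJ : ∀ y t, 1 / 2 ≤ JJ A w y t) (hX : ∀ y t, |XX A w y t - y| ≤ 1) (x t : ℝ) : ℝ :=
  ((FH hJ hX).symm (x, t)).1

lemma YY_smooth (hJ : ∀ y t, 1 / 2 ≤ JJ A w y t) (hX : ∀ y t, |XX A w y t - y| ≤ 1) :
    ContDiff ℝ ∞ (fun p : ℝ × ℝ => YY hJ hX p.1 p.2) :=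
  (contDiff_fst (𝕜 := ℝ) (E := ℝ) (F := ℝ)).comp (FH_symm_smooth hJ hX)

lemma XX_YY (hJ : ∀ y t, 1 / 2 ≤ JJ A w y t) (hX : ∀ y t, |XX A w y t - y| ≤ 1) (x t : ℝ) :
    XX A w (YY hJ hX x t) t = x := by
  have h : FF A w ((FH hJ hX).symm (x, t)) = (x, t) := (FH hJ hX).apply_symm_apply (x, t)
  have h2 : ((FH hJ hX).symm (x, t)).2 = t := by
    have := congrArg Prod.snd h
    simpa [FF] using this
  have h1 := congrArg Prod.fst h
  simp only [FF, h2] at h1
  exact h1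

lemma YY_XX (hJ : ∀ y t, 1 / 2 ≤ JJ A w y t) (hX : ∀ y t, |XX A w y t - y| ≤ 1) (y t : ℝ) :
    YY hJ hX (XX A w y t) t = y := by
  have : XX A w (YY hJ hX (XX A w y t) t) t = XX A w y t := XX_YY hJ hX _ t
  exact (XX_strictMono hJ t).injective this

lemma YY_eq (hJ : ∀ y t, 1 / 2 ≤ JJ A w y t) (hX : ∀ y t, |XX A w y t - y| ≤ 1) {x y t : ℝ}
    (h : XX A w y t = x) : YY hJ hX x t = y := by rw [← h, YY_XX]

lemma hYY_x (hJ : ∀ y t, 1 / 2 ≤ JJ A w y t) (hX : ∀ y t, |XX A w y t - y| ≤ 1) (x t : ℝ) :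
    HasDerivAt (fun z => YY hJ hX z t) (1 / JJ A w (YY hJ hX x t) t) x := by
  have hd : DifferentiableAt ℝ (fun z => YY hJ hX z t) x := by
    have h1 : Differentiable ℝ (fun p : ℝ × ℝ => YY hJ hX p.1 p.2) :=
      (YY_smooth hJ hX).differentiable (by simp)
    have := (h1 (x, t)).comp x (by fun_prop : DifferentiableAt ℝ (fun z : ℝ => (z, t)) x)
    exact this
  have h := hd.hasDerivAt
  have h2 := (hXX_y A w (YY hJ hX x t) t).comp x h
  have h3 : HasDerivAt (fun z : ℝ => z) (1 : ℝ) x := hasDerivAt_id x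
  have h4 : ((fun z => XX A w z t) ∘ fun z => YY hJ hX z t) = fun z => z := by
    ext z; exact XX_YY hJ hX z t
  rw [h4] at h2
  have h5 := h2.unique h3
  have hj := hJ (YY hJ hX x t) t
  have h6 : deriv (fun z => YY hJ hX z t) x = 1 / JJ A w (YY hJ hX x t) t := by
    rw [eq_div_iff (by linarith)]; linarith
  rw [← h6]; exact h

lemma hYY_t (hJ : ∀ y t, 1 / 2 ≤ JJ A w y t) (hX : ∀ y t, |XX A w y t - y| ≤ 1) (x t : ℝ) :
    HasDerivAt (fun s => YY hJ hX x s)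
      (-(Xt A w (YY hJ hX x t) t / JJ A w (YY hJ hX x t) t)) t := by
  have hd : DifferentiableAt ℝ (fun s => YY hJ hX x s) t := by
    have h1 : Differentiable ℝ (fun p : ℝ × ℝ => YY hJ hX p.1 p.2) :=
      (YY_smooth hJ hX).differentiable (by simp)
    have := (h1 (x, t)).comp t (by fun_prop : DifferentiableAt ℝ (fun s : ℝ => (x, s)) t)
    exact this
  have h := hd.hasDerivAt
  have h2 := HasFDerivAt.comp_hasDerivAt (f := fun s => (YY hJ hX x s, s)) t
    (hXX_f A w (YY hJ hX x t, t)) (h.prodMk (hasDerivAt_id t))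
  have h4 : ((fun p : ℝ × ℝ => XX A w p.1 p.2) ∘ fun s => (YY hJ hX x s, s)) = fun _ => x := by
    ext s; exact XX_YY hJ hX x s
  rw [h4] at h2
  have h5 := h2.unique (hasDerivAt_const t x)
  have hj := hJ (YY hJ hX x t) t
  have h6 : deriv (fun s => YY hJ hX x s) t
      = -(Xt A w (YY hJ hX x t) t / JJ A w (YY hJ hX x t) t) := by
    simp at h5
    field_simp
    linarith
  rw [← h6]; exact h

end

section
def sg (z : ℝ) : ℝ := Real.smoothTransition (z / 7 - 1) - Real.smoothTransition (-z / 7 - 1)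

lemma sg_smooth : ContDiff ℝ ∞ sg :=
  (Real.smoothTransition.contDiff.comp ((contDiff_id.div_const 7).sub contDiff_const)).sub
    (Real.smoothTransition.contDiff.comp ((contDiff_id.neg.div_const 7).sub contDiff_const))

def uu (Om z : ℝ) : ℝ := bump (z / 7) * (Om * z / 2) + sg z

lemma uu_smooth (Om : ℝ) : ContDiff ℝ ∞ (uu Om) :=
  ((bump_smooth.comp (contDiff_id.div_const 7)).mul
    ((contDiff_const.mul contDiff_id).div_const 2)).add sg_smooth

def uu' (Om : ℝ) : ℝ → ℝ := deriv (uu Om)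

lemma uu'_smooth (Om : ℝ) : ContDiff ℝ ∞ (uu' Om) := smooth_deriv (uu_smooth Om)

lemma huu (Om y : ℝ) : HasDerivAt (uu Om) (uu' Om y) y := smooth_hasDerivAt (uu_smooth Om) y

def GG (Om y : ℝ) : ℝ := -∫ z in (0 : ℝ)..y, uu Om z

lemma hGG (Om y : ℝ) : HasDerivAt (GG Om) (-uu Om y) y := by
  have hc : Continuous (uu Om) := (uu_smooth Om).continuous
  exact (intervalIntegral.integral_hasDerivAt_right (hc.intervalIntegrable _ _)
    (hc.stronglyMeasurableAtFilter _ _) hc.continuousAt).neg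

lemma GG_smooth (Om : ℝ) : ContDiff ℝ ∞ (GG Om) := by
  rw [contDiff_infty_iff_deriv]
  refine ⟨fun y => (hGG Om y).differentiableAt, ?_⟩
  have : deriv (GG Om) = fun y => -uu Om y := by
    ext y; exact (hGG Om y).deriv
  rw [this]
  exact (uu_smooth Om).neg

variable (A w Om : ℝ)

def Th (y t : ℝ) : ℝ := t + 1 / 2 * (aa' A w t * E1 y + 1 / 2 * (aa A w t * aa' A w t * e1 y ^ 2)
  + cc' A w t * E2 y + 1 / 2 * (cc A w t * cc' A w t * e2 y ^ 2))

def Tht (y t : ℝ) : ℝ := 1 + 1 / 2 * (aa'' A w t * E1 y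
  + 1 / 2 * ((aa' A w t ^ 2 + aa A w t * aa'' A w t) * e1 y ^ 2)
  + cc'' A w t * E2 y + 1 / 2 * ((cc' A w t ^ 2 + cc A w t * cc'' A w t) * e2 y ^ 2))

def DD (y t : ℝ) : ℝ := (-uu Om y - Jy A w y t / (2 * JJ A w y t)) / JJ A w y t

def Dy (y t : ℝ) : ℝ := -uu' Om y / JJ A w y t + uu Om y * Jy A w y t / JJ A w y t ^ 2
  - Jyy A w y t / (2 * JJ A w y t ^ 2) + Jy A w y t ^ 2 / JJ A w y t ^ 3

/-- The potential in label coordinates. -/
def VL (y t : ℝ) : ℝ := DD A w Om y t ^ 2 + Dy A w Om y t / JJ A w y t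
  + Xt A w y t ^ 2 / 4 - Tht A w y t

lemma VL_eq (y t : ℝ) : VL A w Om y t = DD A w Om y t ^ 2 + Dy A w Om y t / JJ A w y t - 1
    - 1 / 2 * (aa'' A w t * E1 y) - 1 / 4 * (aa A w t * aa'' A w t * e1 y ^ 2)
    - 1 / 2 * (cc'' A w t * E2 y) - 1 / 4 * (cc A w t * cc'' A w t * e2 y ^ 2) := by
  unfold VL Xt Tht
  rcases disj y with ⟨h1, h2⟩ | ⟨h1, h2⟩ <;> rw [h1] <;> ring

variable {A w Om}

lemma hTh_y (y t : ℝ) : HasDerivAt (fun z => Th A w z t) (1 / 2 * (Xt A w y t * JJ A w y t)) y := by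
  have h := (((((hE1 y).const_mul (aa' A w t)).add
    ((((he1 y).pow 2).const_mul (aa A w t * aa' A w t)).const_mul (1 / 2))).add
    ((hE2 y).const_mul (cc' A w t))).add
    ((((he2 y).pow 2).const_mul (cc A w t * cc' A w t)).const_mul (1 / 2))).const_mul (1 / 2)
  have h' := h.const_add t
  refine h'.congr_deriv ?_
  unfold Xt JJ
  rcases disj y with ⟨h1, h2⟩ | ⟨h1, h2⟩ <;> rw [h1, h2] <;> push_cast <;> ring

lemma hTh_t (y t : ℝ) : HasDerivAt (fun s => Th A w y s) (Tht A w y t) t := by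
  have h1 := (haa' A w t).mul_const (E1 y)
  have h2 := ((((haa A w t).mul (haa' A w t)).mul_const (e1 y ^ 2)).const_mul (1 / 2))
  have h3 := (hcc' A w t).mul_const (E2 y)
  have h4 := ((((hcc A w t).mul (hcc' A w t)).mul_const (e2 y ^ 2)).const_mul (1 / 2))
  have h := (hasDerivAt_id t).add ((((h1.add h2).add h3).add h4).const_mul (1 / 2))
  refine h.congr_deriv ?_
  unfold Tht; ring

lemma Th_smooth : ContDiff ℝ ∞ (fun p : ℝ × ℝ => Th A w p.1 p.2) := by
  unfold Th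
  have a1 := smooth_snd (aa_smooth A w)
  have a2 := smooth_snd (aa'_smooth A w)
  have c1 := smooth_snd (cc_smooth A w)
  have c2 := smooth_snd (cc'_smooth A w)
  have b1 := smooth_fst E1_smooth
  have b2 := smooth_fst e1_smooth
  have d1 := smooth_fst E2_smooth
  have d2 := smooth_fst e2_smooth
  exact contDiff_snd.add (contDiff_const.mul ((((a2.mul b1).add (contDiff_const.mul
    ((a1.mul a2).mul (b2.pow 2)))).add (c2.mul d1)).add (contDiff_const.mul
    ((c1.mul c2).mul (d2.pow 2)))))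

lemma Tht_smooth : ContDiff ℝ ∞ (fun p : ℝ × ℝ => Tht A w p.1 p.2) := by
  unfold Tht
  have a1 := smooth_snd (aa_smooth A w)
  have a2 := smooth_snd (aa'_smooth A w)
  have a3 := smooth_snd (aa''_smooth A w)
  have c1 := smooth_snd (cc_smooth A w)
  have c2 := smooth_snd (cc'_smooth A w)
  have c3 := smooth_snd (cc''_smooth A w)
  have b1 := smooth_fst E1_smooth
  have b2 := smooth_fst e1_smooth
  have d1 := smooth_fst E2_smooth
  have d2 := smooth_fst e2_smooth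
  exact contDiff_const.add (contDiff_const.mul ((((a3.mul b1).add (contDiff_const.mul
    (((a2.pow 2).add (a1.mul a3)).mul (b2.pow 2)))).add (c3.mul d1)).add (contDiff_const.mul
    (((c2.pow 2).add (c1.mul c3)).mul (d2.pow 2)))))

lemma VL_smooth (hJ : ∀ y t, 1 / 2 ≤ JJ A w y t) :
    ContDiff ℝ ∞ (fun p : ℝ × ℝ => VL A w Om p.1 p.2) := by
  have hne : ∀ p : ℝ × ℝ, JJ A w p.1 p.2 ≠ 0 := fun p => by have := hJ p.1 p.2; linarith
  have hu := smooth_fst (uu_smooth Om)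
  have hu' := smooth_fst (uu'_smooth Om)
  have j0 := JJ_smooth A w
  have j1 := Jy_smooth A w
  have j2 := Jyy_smooth A w
  have xt := Xt_smooth A w
  have hD : ContDiff ℝ ∞ (fun p : ℝ × ℝ => DD A w Om p.1 p.2) := by
    unfold DD
    exact (hu.neg.sub (j1.div (contDiff_const.mul j0) (fun p => by
      simpa using hne p))).div j0 hne
  have hDy : ContDiff ℝ ∞ (fun p : ℝ × ℝ => Dy A w Om p.1 p.2) := by
    unfold Dy
    exact ((((hu'.neg.div j0 hne).add ((hu.mul j1).div (j0.pow 2) (fun p => pow_ne_zero _ (hne p)))).sub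
      (j2.div (contDiff_const.mul (j0.pow 2)) (fun p => by simpa using hne p)))).add
      ((j1.pow 2).div (j0.pow 3) (fun p => pow_ne_zero _ (hne p)))
  unfold VL
  exact (((hD.pow 2).add (hDy.div j0 hne)).add ((xt.pow 2).div_const 4)).sub Tht_smooth

/-- amplitude exponent in label coordinates -/
def gg (A w Om y t : ℝ) : ℝ := GG Om y - 1 / 2 * Real.log (JJ A w y t)

lemma gg_smooth (hJ : ∀ y t, 1 / 2 ≤ JJ A w y t) :
    ContDiff ℝ ∞ (fun p : ℝ × ℝ => gg A w Om p.1 p.2) := by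
  have hne : ∀ p : ℝ × ℝ, JJ A w p.1 p.2 ≠ 0 := fun p => by have := hJ p.1 p.2; linarith
  unfold gg
  exact (smooth_fst (GG_smooth Om)).sub (contDiff_const.mul ((JJ_smooth A w).log hne))

/-- the wave function -/
def psi (hJ : ∀ y t, 1 / 2 ≤ JJ A w y t) (hX : ∀ y t, |XX A w y t - y| ≤ 1) (Om x t : ℝ) : ℂ :=
  Complex.exp ((gg A w Om (YY hJ hX x t) t : ℝ) + Complex.I * (Th A w (YY hJ hX x t) t : ℝ))

/-- the potential -/
def VV (hJ : ∀ y t, 1 / 2 ≤ JJ A w y t) (hX : ∀ y t, |XX A w y t - y| ≤ 1) (Om x t : ℝ) : ℝ :=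
  VL A w Om (YY hJ hX x t) t

variable (hJ : ∀ y t, 1 / 2 ≤ JJ A w y t) (hX : ∀ y t, |XX A w y t - y| ≤ 1)

include hJ in
lemma JJ_ne (y t : ℝ) : JJ A w y t ≠ 0 := by have := hJ y t; linarith

lemma hJJ_y (y t : ℝ) : HasDerivAt (fun z => JJ A w z t) (Jy A w y t) y := by
  have := ((hasDerivAt_const y (1 : ℝ)).add ((hf1 y).const_mul (aa A w t))).add
    ((hf2 y).const_mul (cc A w t))
  refine this.congr_deriv ?_
  unfold Jy; ring

lemma hJy_y (y t : ℝ) : HasDerivAt (fun z => Jy A w z t) (Jyy A w y t) y := by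
  have := ((hg1 y).const_mul (aa A w t)).add ((hg2 y).const_mul (cc A w t))
  exact this

lemma hXt_y (y t : ℝ) : HasDerivAt (fun z => Xt A w z t) (Jt A w y t) y := by
  have := ((he1 y).const_mul (aa' A w t)).add ((he2 y).const_mul (cc' A w t))
  exact this

include hJ in
lemma hgg_y (y t : ℝ) : HasDerivAt (fun z => gg A w Om z t) (DD A w Om y t * JJ A w y t) y := by
  have h := (hGG Om y).sub (((hJJ_y (A := A) (w := w) y t).log (JJ_ne hJ y t)).const_mul (1 / 2))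
  refine h.congr_deriv ?_
  unfold DD
  have := JJ_ne hJ y t
  field_simp

include hJ in
lemma hDD_y (y t : ℝ) : HasDerivAt (fun z => DD A w Om z t) (Dy A w Om y t) y := by
  have hj := JJ_ne hJ y t
  have h := ((huu Om y).neg.sub ((hJy_y (A := A) (w := w) y t).div ((hJJ_y (A := A) (w := w) y t).const_mul 2)
    (by simpa using hj))).div (hJJ_y (A := A) (w := w) y t) hj
  refine h.congr_deriv ?_
  unfold Dy
  simp only [Pi.neg_apply, Pi.sub_apply, Pi.div_apply]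
  field_simp
  ring

lemma hpsi_x (x t : ℝ) : HasDerivAt (fun z => psi hJ hX Om z t)
    (psi hJ hX Om x t * ((DD A w Om (YY hJ hX x t) t : ℝ) +
      Complex.I * ((1 / 2 * Xt A w (YY hJ hX x t) t : ℝ)))) x := by
  have hj := JJ_ne hJ (YY hJ hX x t) t
  have h1 : HasDerivAt (fun z => gg A w Om (YY hJ hX z t) t) (DD A w Om (YY hJ hX x t) t) x := by
    have := HasDerivAt.comp x (hgg_y (Om := Om) hJ (YY hJ hX x t) t) (hYY_x hJ hX x t)
    refine this.congr_deriv ?_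
    field_simp
  have h2 : HasDerivAt (fun z => Th A w (YY hJ hX z t) t) (1 / 2 * Xt A w (YY hJ hX x t) t) x := by
    have := HasDerivAt.comp x (hTh_y (A := A) (w := w) (YY hJ hX x t) t) (hYY_x hJ hX x t)
    refine this.congr_deriv ?_
    field_simp
  exact (h1.ofReal_comp.add (h2.ofReal_comp.const_mul Complex.I)).cexp

lemma hpsi_xx (x t : ℝ) : HasDerivAt (fun z => psi hJ hX Om z t * ((DD A w Om (YY hJ hX z t) t : ℝ) +
      Complex.I * ((1 / 2 * Xt A w (YY hJ hX z t) t : ℝ))))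
    (psi hJ hX Om x t * (((DD A w Om (YY hJ hX x t) t : ℝ) +
      Complex.I * ((1 / 2 * Xt A w (YY hJ hX x t) t : ℝ))) ^ 2 +
      ((Dy A w Om (YY hJ hX x t) t / JJ A w (YY hJ hX x t) t : ℝ) +
        Complex.I * ((1 / 2 * (Jt A w (YY hJ hX x t) t / JJ A w (YY hJ hX x t) t) : ℝ))))) x := by
  have hj := JJ_ne hJ (YY hJ hX x t) t
  have h1 : HasDerivAt (fun z => DD A w Om (YY hJ hX z t) t)
      (Dy A w Om (YY hJ hX x t) t / JJ A w (YY hJ hX x t) t) x := by
    have := HasDerivAt.comp x (hDD_y (Om := Om) hJ (YY hJ hX x t) t) (hYY_x hJ hX x t)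
    refine this.congr_deriv ?_
    field_simp
  have h2 : HasDerivAt (fun z => 1 / 2 * Xt A w (YY hJ hX z t) t)
      (1 / 2 * (Jt A w (YY hJ hX x t) t / JJ A w (YY hJ hX x t) t)) x := by
    have := (HasDerivAt.comp x (hXt_y (A := A) (w := w) (YY hJ hX x t) t) (hYY_x hJ hX x t)).const_mul (1 / 2)
    refine this.congr_deriv ?_
    field_simp
  have h := (hpsi_x (Om := Om) hJ hX x t).mul (h1.ofReal_comp.add (h2.ofReal_comp.const_mul Complex.I))
  refine h.congr_deriv ?_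
  simp only [Pi.add_apply]
  ring

lemma hpsi_t (x t : ℝ) : HasDerivAt (fun s => psi hJ hX Om x s)
    (psi hJ hX Om x t * ((-(DD A w Om (YY hJ hX x t) t * Xt A w (YY hJ hX x t) t)
        - 1 / 2 * (Jt A w (YY hJ hX x t) t / JJ A w (YY hJ hX x t) t) : ℝ) +
      Complex.I * ((Tht A w (YY hJ hX x t) t - 1 / 2 * Xt A w (YY hJ hX x t) t ^ 2 : ℝ)))) t := by
  have hj := JJ_ne hJ (YY hJ hX x t) t
  have hY := hYY_t hJ hX x t
  have hJt : HasDerivAt (fun s => JJ A w (YY hJ hX x s) s)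
      (Jy A w (YY hJ hX x t) t * (-(Xt A w (YY hJ hX x t) t / JJ A w (YY hJ hX x t) t))
        + Jt A w (YY hJ hX x t) t) t := by
    have h1 := (haa A w t).mul (HasDerivAt.comp t (hf1 (YY hJ hX x t)) hY)
    have h2 := (hcc A w t).mul (HasDerivAt.comp t (hf2 (YY hJ hX x t)) hY)
    have h := ((hasDerivAt_const t (1 : ℝ)).add h1).add h2
    refine h.congr_deriv ?_
    simp only [Function.comp_apply]
    unfold Jy Jt; ring
  have h1 : HasDerivAt (fun s => gg A w Om (YY hJ hX x s) s)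
      (-(DD A w Om (YY hJ hX x t) t * Xt A w (YY hJ hX x t) t)
        - 1 / 2 * (Jt A w (YY hJ hX x t) t / JJ A w (YY hJ hX x t) t)) t := by
    have := (HasDerivAt.comp t (hGG Om (YY hJ hX x t)) hY).sub ((hJt.log hj).const_mul (1 / 2))
    refine this.congr_deriv ?_
    unfold DD
    field_simp
    ring
  have h2 : HasDerivAt (fun s => Th A w (YY hJ hX x s) s)
      (Tht A w (YY hJ hX x t) t - 1 / 2 * Xt A w (YY hJ hX x t) t ^ 2) t := by
    have hd : HasFDerivAt (fun p : ℝ × ℝ => Th A w p.1 p.2)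
        (fderiv ℝ (fun p : ℝ × ℝ => Th A w p.1 p.2) (YY hJ hX x t, t)) (YY hJ hX x t, t) :=
      ((Th_smooth (A := A) (w := w)).differentiable (by simp) _).hasFDerivAt
    have k1 : HasDerivAt (fun z => Th A w z t)
        (fderiv ℝ (fun p : ℝ × ℝ => Th A w p.1 p.2) (YY hJ hX x t, t) (1, 0)) (YY hJ hX x t) :=
      HasFDerivAt.comp_hasDerivAt (f := fun z : ℝ => (z, t)) _ hd
        ((hasDerivAt_id _).prodMk (hasDerivAt_const _ t))
    have k2 : HasDerivAt (fun s => Th A w (YY hJ hX x t) s)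
        (fderiv ℝ (fun p : ℝ × ℝ => Th A w p.1 p.2) (YY hJ hX x t, t) (0, 1)) t :=
      HasFDerivAt.comp_hasDerivAt (f := fun s : ℝ => (YY hJ hX x t, s)) _ hd
        ((hasDerivAt_const _ _).prodMk (hasDerivAt_id t))
    have e1 := k1.unique (hTh_y (A := A) (w := w) (YY hJ hX x t) t)
    have e2 := k2.unique (hTh_t (A := A) (w := w) (YY hJ hX x t) t)
    have k3 := HasFDerivAt.comp_hasDerivAt (f := fun s : ℝ => (YY hJ hX x s, s)) t hd
      (hY.prodMk (hasDerivAt_id t))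
    refine k3.congr_deriv ?_
    have hsplit : (-(Xt A w (YY hJ hX x t) t / JJ A w (YY hJ hX x t) t), (1 : ℝ))
        = (-(Xt A w (YY hJ hX x t) t / JJ A w (YY hJ hX x t) t)) • ((1 : ℝ), (0 : ℝ)) + ((0 : ℝ), (1 : ℝ)) := by
      simp
    rw [hsplit, map_add, map_smul, e1, e2, smul_eq_mul]
    field_simp
    ring
  exact (h1.ofReal_comp.add (h2.ofReal_comp.const_mul Complex.I)).cexp

/-- The Schroedinger equation. -/
lemma schrodinger (x t : ℝ) : Complex.I * deriv (fun s => psi hJ hX Om x s) t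
    = -deriv (deriv (fun z => psi hJ hX Om z t)) x + (VV hJ hX Om x t : ℝ) * psi hJ hX Om x t := by
  have h1 : deriv (fun z => psi hJ hX Om z t) = fun z => psi hJ hX Om z t *
      ((DD A w Om (YY hJ hX z t) t : ℝ) + Complex.I * ((1 / 2 * Xt A w (YY hJ hX z t) t : ℝ))) := by
    ext z; exact (hpsi_x hJ hX z t).deriv
  rw [h1, (hpsi_xx hJ hX x t).deriv, (hpsi_t hJ hX x t).deriv]
  unfold VV VL
  push_cast
  ring_nf
  simp only [Complex.I_sq]
  ring

end

section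
/-! ### facts on `uu` -/

lemma st_symm (x : ℝ) : Real.smoothTransition x = 1 - Real.smoothTransition (1 - x) := by
  have h := Real.smoothTransition.pos_denom x
  unfold Real.smoothTransition
  rw [show 1 - (1 - x) = x by ring, add_comm (expNegInvGlue (1 - x))]
  field_simp
  ring

lemma uu_pos_formula (Om : ℝ) {z : ℝ} (hz : -1 < z) : uu Om z
    = 1 + Real.smoothTransition (2 - z / 7) * (Om * z / 2 - 1) := by
  unfold uu sg bump
  rw [Real.smoothTransition.one_of_one_le (by linarith : 1 ≤ 2 + z / 7),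
    Real.smoothTransition.zero_of_nonpos (by linarith : -z / 7 - 1 ≤ 0), st_symm (z / 7 - 1),
    show 1 - (z / 7 - 1) = 2 - z / 7 by ring]
  ring

lemma uu_odd (Om z : ℝ) : uu Om (-z) = -uu Om z := by
  unfold uu sg
  rw [show -z / 7 = -(z / 7) by ring, bump_neg, show - -z / 7 = z / 7 by ring]
  ring

lemma uu'_even (Om z : ℝ) : uu' Om (-z) = uu' Om z := by
  have h : (fun x => uu Om (-x)) = fun x => -uu Om x := by
    ext x; exact uu_odd Om x
  have h1 : deriv (fun x => uu Om (-x)) z = -deriv (uu Om) (-z) := deriv_comp_neg _ _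
  rw [h] at h1
  have h2 : deriv (fun x => -uu Om x) z = -deriv (uu Om) z := by
    simp
  rw [h2] at h1
  unfold uu'; linarith

lemma uu_core (Om : ℝ) {z : ℝ} (hz : |z| < 7) : uu Om z = Om * z / 2 := by
  have := abs_lt.1 hz
  have hb : |z / 7| ≤ 1 := by rw [abs_div]; norm_num; linarith
  unfold uu sg
  rw [bump_one hb, Real.smoothTransition.zero_of_nonpos (by linarith),
    Real.smoothTransition.zero_of_nonpos (by linarith)]
  ring

lemma uu'_core (Om : ℝ) {z : ℝ} (hz : |z| < 7) : uu' Om z = Om / 2 := by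
  have hopen : ∀ᶠ z in 𝓝 z, |z| < 7 := (continuous_abs.isOpen_preimage _ isOpen_Iio).mem_nhds hz
  have key : uu Om =ᶠ[𝓝 z] fun x => Om / 2 * x := by
    filter_upwards [hopen] with x hx
    rw [uu_core Om hx]; ring
  rw [uu', key.deriv_eq]
  simp

lemma uu'_pos_formula (Om : ℝ) {z : ℝ} (hz : -1 < z) : uu' Om z
    = -(deriv Real.smoothTransition (2 - z / 7) / 7) * (Om * z / 2 - 1)
      + Real.smoothTransition (2 - z / 7) * (Om / 2) := by
  have hopen : ∀ᶠ x in 𝓝 z, -1 < x := isOpen_Ioi.mem_nhds hz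
  have key : uu Om =ᶠ[𝓝 z] fun x => 1 + Real.smoothTransition (2 - x / 7) * (Om * x / 2 - 1) := by
    filter_upwards [hopen] with x hx
    exact uu_pos_formula Om hx
  rw [uu', key.deriv_eq]
  have h0 : HasDerivAt (fun x : ℝ => 2 - x / 7) (-(1 / 7)) z := by
    simpa using ((hasDerivAt_id z).div_const 7).const_sub 2
  have h1 : HasDerivAt Real.smoothTransition (deriv Real.smoothTransition (2 - z / 7)) (2 - z / 7) :=
    ((Real.smoothTransition.contDiff (n := 1)).differentiable (by simp) _).hasDerivAt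
  have h2 : HasDerivAt (fun x : ℝ => Om * x / 2 - 1) (Om / 2) z := by
    have := (((hasDerivAt_id z).const_mul Om).div_const 2).sub_const 1
    simpa using this
  have h3 := ((h1.comp z h0).mul h2).const_add 1
  rw [show (fun x => 1 + Real.smoothTransition (2 - x / 7) * (Om * x / 2 - 1))
    = (fun x => 1 + ((Real.smoothTransition ∘ fun x => 2 - x / 7) * fun x => Om * x / 2 - 1) x) from rfl,
    h3.deriv]
  simp only [Function.comp_apply]
  ring

/-- positivity of the static part, positive side -/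
lemma static_pos {Om : ℝ} (hOm : 4 ≤ Om) {z : ℝ} (hz : 1 < z) :
    0 ≤ uu Om z ^ 2 - uu' Om z - 1 := by
  rw [uu_pos_formula Om (by linarith), uu'_pos_formula Om (by linarith)]
  have hb := Real.smoothTransition.nonneg (2 - z / 7)
  have hd : 0 ≤ deriv Real.smoothTransition (2 - z / 7) := Real.smoothTransition.monotone.deriv_nonneg
  set b := Real.smoothTransition (2 - z / 7)
  set d := deriv Real.smoothTransition (2 - z / 7)
  have hq : Om / 4 ≤ Om * z / 2 - 1 := by nlinarith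
  set q := Om * z / 2 - 1
  have h1 : (1 + b * q) ^ 2 - (-(d / 7) * q + b * (Om / 2)) - 1
      = b * (2 * q - Om / 2) + (b * q) ^ 2 + d / 7 * q := by ring
  rw [h1]
  have : 0 ≤ q := by linarith
  have : 0 ≤ b * (2 * q - Om / 2) := mul_nonneg hb (by linarith)
  positivity

lemma static_nonneg {Om : ℝ} (hOm : 4 ≤ Om) {z : ℝ} (hz : 1 < |z|) :
    0 ≤ uu Om z ^ 2 - uu' Om z - 1 := by
  rcases le_or_gt 0 z with h | h
  · rw [abs_of_nonneg h] at hz
    exact static_pos hOm hz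
  · rw [abs_of_neg h] at hz
    have := static_pos hOm hz
    rwa [uu_odd, uu'_even, neg_sq] at this

lemma static_zero_pos (Om : ℝ) {z : ℝ} (hz : 14 < z) : uu Om z ^ 2 - uu' Om z - 1 = 0 := by
  have h1 : ∀ x : ℝ, 14 < x → uu Om x = 1 := by
    intro x hx
    rw [uu_pos_formula Om (by linarith), Real.smoothTransition.zero_of_nonpos (by linarith)]
    ring
  have h2 : uu' Om z = 0 := by
    have hopen : ∀ᶠ x in 𝓝 z, 14 < x := isOpen_Ioi.mem_nhds hz
    have key : uu Om =ᶠ[𝓝 z] fun _ => 1 := by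
      filter_upwards [hopen] with x hx
      exact h1 x hx
    rw [uu', key.deriv_eq]; simp
  rw [h1 z hz, h2]; ring

lemma static_zero (Om : ℝ) {z : ℝ} (hz : 14 < |z|) : uu Om z ^ 2 - uu' Om z - 1 = 0 := by
  rcases le_or_gt 0 z with h | h
  · rw [abs_of_nonneg h] at hz
    exact static_zero_pos Om hz
  · rw [abs_of_neg h] at hz
    have := static_zero_pos Om hz
    rwa [uu_odd, uu'_even, neg_sq] at this

lemma uu_ge_one {Om : ℝ} (hOm : 4 ≤ Om) {z : ℝ} (hz : 1 ≤ z) : 1 ≤ uu Om z := by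
  rw [uu_pos_formula Om (by linarith)]
  have hb := Real.smoothTransition.nonneg (2 - z / 7)
  have hq : 0 ≤ Om * z / 2 - 1 := by nlinarith
  have := mul_nonneg hb hq
  linarith

lemma GG_bound {Om : ℝ} (hOm : 4 ≤ Om) : ∃ C, ∀ y, GG Om y ≤ C - |y| := by
  have hc : Continuous (GG Om) := (GG_smooth Om).continuous
  have hu : Continuous (uu Om) := (uu_smooth Om).continuous
  obtain ⟨K, hK⟩ := (isCompact_Icc (a := (-1 : ℝ)) (b := 1)).exists_bound_of_continuousOn hc.continuousOn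
  refine ⟨K + 1, fun y => ?_⟩
  rcases le_or_gt (|y|) 1 with h | h
  · have := hK y (abs_le.1 h)
    rw [Real.norm_eq_abs] at this
    have := (abs_le.1 this).2
    linarith
  · rcases le_or_gt 0 y with h0 | h0
    · rw [abs_of_nonneg h0] at h ⊢
      have k1 := hK 1 (by constructor <;> norm_num)
      rw [Real.norm_eq_abs] at k1
      have k1 := (abs_le.1 k1).2
      have hsplit : GG Om y = GG Om 1 - ∫ z in (1 : ℝ)..y, uu Om z := by
        unfold GG
        rw [← intervalIntegral.integral_add_adjacent_intervals (hu.intervalIntegrable 0 1)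
          (hu.intervalIntegrable 1 y)]
        ring
      have hle : ∫ z in (1 : ℝ)..y, (1 : ℝ) ≤ ∫ z in (1 : ℝ)..y, uu Om z := by
        apply intervalIntegral.integral_mono_on h.le (continuous_const.intervalIntegrable _ _)
          (hu.intervalIntegrable _ _)
        intro z hz
        exact uu_ge_one hOm hz.1
      simp at hle
      linarith
    · rw [abs_of_neg h0] at h ⊢
      have k1 := hK (-1) (by constructor <;> norm_num)
      rw [Real.norm_eq_abs] at k1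
      have k1 := (abs_le.1 k1).2
      have hsplit : GG Om y = GG Om (-1) + ∫ z in y..(-1 : ℝ), uu Om z := by
        unfold GG
        rw [← intervalIntegral.integral_add_adjacent_intervals (hu.intervalIntegrable 0 (-1))
          (hu.intervalIntegrable (-1) y), intervalIntegral.integral_symm (-1) y]
        ring
      have hle : ∫ z in y..(-1 : ℝ), uu Om z ≤ ∫ z in y..(-1 : ℝ), (-1 : ℝ) := by
        apply intervalIntegral.integral_mono_on (by linarith) (hu.intervalIntegrable _ _)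
          (continuous_const.intervalIntegrable _ _)
        intro z hz
        have := uu_ge_one hOm (z := -z) (by linarith [hz.2])
        rw [uu_odd] at this
        linarith
      simp at hle
      linarith

/-! ### the choice of parameters -/

lemma abs_mul_le {a b A M : ℝ} (ha : |a| ≤ A) (hb : |b| ≤ M) : |a * b| ≤ A * M := by
  rw [abs_mul]
  exact mul_le_mul ha hb (abs_nonneg _) ((abs_nonneg _).trans ha)

theorem exists_params : ∃ (A w Om : ℝ) (hJ : ∀ y t, 1 / 2 ≤ JJ A w y t)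
    (hX : ∀ y t, |XX A w y t - y| ≤ 1), 0 < w ∧ 4 ≤ Om ∧ (∀ y t, 0 ≤ VL A w Om y t) ∧
      VL A w Om 0 0 ≠ 0 := by
  obtain ⟨M, hM1, hM⟩ := exists_M
  set A : ℝ := 1 / (8 * M) with hA
  set Om : ℝ := 10000 * M ^ 2 with hOm
  set w : ℝ := Real.sqrt (8 * Om) / A with hw
  have hM0 : 0 < M := by linarith
  have hA0 : 0 < A := by positivity
  have hAM : A * M = 1 / 8 := by rw [hA]; field_simp
  have hA8 : A ≤ 1 / 8 := by
    have : A ≤ A * M := by nlinarith
    linarith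
  have hOm0 : 0 < Om := by positivity
  have hOm4 : 10000 ≤ Om := by nlinarith
  have hw0 : 0 < w := by positivity
  have hAw : A ^ 2 * w ^ 2 = 8 * Om := by
    have h1 : A * w = Real.sqrt (8 * Om) := by rw [hw]; field_simp
    have h2 : A ^ 2 * w ^ 2 = (A * w) ^ 2 := by ring
    rw [h2, h1, Real.sq_sqrt (by positivity)]
  have hAw1 : A * w ^ 2 = 64 * M * Om := by
    have : A * (A * w ^ 2) = A * (64 * M * Om) := by
      calc A * (A * w ^ 2) = A ^ 2 * w ^ 2 := by ring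
        _ = 8 * Om := hAw
        _ = (A * M) * (64 * Om) := by rw [hAM]; ring
        _ = A * (64 * M * Om) := by ring
    exact mul_left_cancel₀ hA0.ne' this
  -- bounds on the time functions
  have sin_le : ∀ s : ℝ, |Real.sin s| ≤ 1 := Real.abs_sin_le_one
  have cos_le : ∀ s : ℝ, |Real.cos s| ≤ 1 := Real.abs_cos_le_one
  have baa : ∀ t, |aa A w t| ≤ A := by
    intro t
    have := abs_mul_le (a := A) (b := Real.sin (w * t)) (A := A) (M := 1)
      (by rw [abs_of_pos hA0]) (sin_le _)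
    simpa [aa] using this
  have bcc : ∀ t, |cc A w t| ≤ A / 128 := by
    intro t
    have h1 : |A ^ 2 / 16| ≤ A / 128 := by
      rw [abs_of_pos (by positivity)]
      have := mul_le_mul_of_nonneg_left hA8 hA0.le
      rw [← pow_two] at this; linarith
    have := abs_mul_le (b := Real.cos (2 * w * t)) h1 (cos_le _)
    simpa [cc] using this
  have baa2 : ∀ t, |aa'' A w t| ≤ 64 * M * Om := by
    intro t
    have h1 : |A * w ^ 2| ≤ 64 * M * Om := by
      rw [abs_of_pos (by positivity)]; exact hAw1.le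
    have := abs_mul_le (b := Real.sin (w * t)) h1 (sin_le _)
    simpa [aa''] using this
  have bcc2 : ∀ t, |cc'' A w t| ≤ 2 * Om := by
    intro t
    have h1 : |A ^ 2 / 4 * w ^ 2| ≤ 2 * Om := by
      rw [abs_of_pos (by positivity), show A ^ 2 / 4 * w ^ 2 = A ^ 2 * w ^ 2 / 4 by ring, hAw]
      linarith
    have := abs_mul_le (b := Real.cos (2 * w * t)) h1 (cos_le _)
    simpa [cc''] using this
  -- bounds on the combinations
  have comb : ∀ (p q t : ℝ), |p| ≤ M → |q| ≤ M → |aa A w t * p + cc A w t * q| ≤ 1 / 4 := by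
    intro p q t hp hq
    have h1 := abs_mul_le (baa t) hp
    have h2 := abs_mul_le (bcc t) hq
    have h3 := abs_add_le (aa A w t * p) (cc A w t * q)
    have h4 : A / 128 * M ≤ 1 / 8 := by
      rw [show A / 128 * M = A * M / 128 by ring, hAM]; norm_num
    linarith
  have hJb : ∀ y t, 3 / 4 ≤ JJ A w y t ∧ JJ A w y t ≤ 5 / 4 := by
    intro y t
    have := abs_le.1 (comb (f1 y) (f2 y) t (hM y).2.2.1 (hM y).2.2.2.2.2.2.2.1)
    unfold JJ
    constructor <;> linarith [this.1, this.2]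
  have hJyb : ∀ y t, |Jy A w y t| ≤ 1 / 4 := fun y t =>
    comb (g1 y) (g2 y) t (hM y).2.2.2.1 (hM y).2.2.2.2.2.2.2.2.1
  have hJyyb : ∀ y t, |Jyy A w y t| ≤ 1 / 4 := fun y t =>
    comb (h1 y) (h2 y) t (hM y).2.2.2.2.1 (hM y).2.2.2.2.2.2.2.2.2
  have hJ : ∀ y t, 1 / 2 ≤ JJ A w y t := fun y t => by linarith [(hJb y t).1]
  have hX : ∀ y t, |XX A w y t - y| ≤ 1 := by
    intro y t
    have := comb (e1 y) (e2 y) t (hM y).2.1 (hM y).2.2.2.2.2.2.1
    have h2 : XX A w y t - y = aa A w t * e1 y + cc A w t * e2 y := by unfold XX; ring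
    rw [h2]; linarith
  -- the core formula
  have core : ∀ y t, |y| < 1 → VL A w Om y t = Om ^ 2 * y ^ 2 / 4 + Om / 2 - 1
      + 32 * M * Om * (Real.sin (w * t) * y) := by
    intro y t hy
    obtain ⟨a1, a2, a3, a4, a5⟩ := core1 hy
    obtain ⟨b1, b2, b3, b4, b5⟩ := core2 (y := y) (by linarith)
    have hJ1 : JJ A w y t = 1 := by unfold JJ; rw [a3, b3]; ring
    have hJy0 : Jy A w y t = 0 := by unfold Jy; rw [a4, b4]; ring
    have hJyy0 : Jyy A w y t = 0 := by unfold Jyy; rw [a5, b5]; ring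
    rw [VL_eq]
    unfold DD Dy
    rw [hJ1, hJy0, hJyy0, a1, a2, b1, b2, uu_core Om (by linarith : |y| < 7),
      uu'_core Om (by linarith : |y| < 7)]
    unfold aa aa'' cc''
    have hcos : Real.cos (2 * w * t) = 1 - 2 * Real.sin (w * t) ^ 2 := by
      rw [show 2 * w * t = 2 * (w * t) by ring, Real.cos_two_mul, ← Real.sin_sq_add_cos_sq (w * t)]
      ring
    rw [hcos]
    have e1 : 1 / 2 * (-(A * w ^ 2 * Real.sin (w * t)) * y)
        = -(32 * M * Om * (Real.sin (w * t) * y)) := by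
      rw [hAw1]; ring
    have e2 : 1 / 4 * (A * Real.sin (w * t) * -(A * w ^ 2 * Real.sin (w * t)) * 1 ^ 2)
        = -(2 * Om * Real.sin (w * t) ^ 2) := by
      have : 1 / 4 * (A * Real.sin (w * t) * -(A * w ^ 2 * Real.sin (w * t)) * 1 ^ 2)
        = -(1 / 4 * (A ^ 2 * w ^ 2) * Real.sin (w * t) ^ 2) := by ring
      rw [this, hAw]; ring
    have e3 : 1 / 2 * (A ^ 2 / 4 * w ^ 2 * (1 - 2 * Real.sin (w * t) ^ 2) * -1)
        = -(Om * (1 - 2 * Real.sin (w * t) ^ 2)) := by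
      have : 1 / 2 * (A ^ 2 / 4 * w ^ 2 * (1 - 2 * Real.sin (w * t) ^ 2) * -1)
        = -(1 / 8 * (A ^ 2 * w ^ 2) * (1 - 2 * Real.sin (w * t) ^ 2)) := by ring
      rw [this, hAw]; ring
    rw [e1, e2, e3]
    ring
  refine ⟨A, w, Om, hJ, hX, hw0, by linarith, ?_, ?_⟩
  · intro y t
    rcases lt_or_ge (|y|) 1 with hy | hy
    · rw [core y t hy]
      have hs := abs_le.1 (sin_le (w * t))
      set s := Real.sin (w * t)
      have hs2 : s ^ 2 ≤ 1 := (sq_le_one_iff_abs_le_one s).2 (sin_le _)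
      have key : 0 ≤ (Om * y / 2 + 32 * M * s) ^ 2 := sq_nonneg _
      have h3 : 1024 * M ^ 2 * s ^ 2 ≤ 1024 * M ^ 2 * 1 :=
        mul_le_mul_of_nonneg_left hs2 (by positivity)
      have hMsq : 1 ≤ M ^ 2 := one_le_pow₀ hM1
      have h4 : 0 ≤ Om / 2 - 1 - 1024 * M ^ 2 := by rw [hOm]; linarith
      have e : Om ^ 2 * y ^ 2 / 4 + Om / 2 - 1 + 32 * M * Om * (s * y)
        = (Om * y / 2 + 32 * M * s) ^ 2 + (Om / 2 - 1 - 1024 * M ^ 2 * s ^ 2) := by ring
      rw [e]; linarith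
    rcases lt_or_ge (|y|) 7 with hy7 | hy7
    · -- middle region
      rw [VL_eq]
      obtain ⟨m1, m2, m3, m4, m5, n1, n2, n3, n4, n5⟩ := hM y
      obtain ⟨j1, j2⟩ := hJb y t
      have jy := hJyb y t
      have jyy := hJyyb y t
      have hj0 : 0 < JJ A w y t := by linarith
      have hu : uu Om y = Om * y / 2 := uu_core Om hy7
      have hu' : uu' Om y = Om / 2 := uu'_core Om hy7
      have habs : |uu Om y| = Om * |y| / 2 := by
        rw [hu, abs_div, abs_mul, abs_of_pos hOm0, abs_two]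
      have hub1 : Om / 2 ≤ |uu Om y| := by
        have := mul_le_mul_of_nonneg_left hy hOm0.le
        rw [habs]; linarith
      have hub2 : |uu Om y| ≤ 7 / 2 * Om := by
        have := mul_le_mul_of_nonneg_left hy7.le hOm0.le
        rw [habs]; linarith
      -- DD
      have hDD : Om ^ 2 / 25 ≤ DD A w Om y t ^ 2 := by
        have h1 : |Jy A w y t / (2 * JJ A w y t)| ≤ 1 := by
          rw [abs_div, abs_of_pos (by linarith : 0 < 2 * JJ A w y t), div_le_one (by linarith)]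
          linarith
        have h2 : Om / 4 ≤ |-uu Om y - Jy A w y t / (2 * JJ A w y t)| := by
          have h3 := abs_sub_abs_le_abs_sub (-uu Om y) (Jy A w y t / (2 * JJ A w y t))
          rw [abs_neg] at h3
          linarith
        have h4 : Om / 5 ≤ |DD A w Om y t| := by
          unfold DD
          rw [abs_div, abs_of_pos hj0, le_div_iff₀ hj0]
          have := mul_le_mul_of_nonneg_left j2 (by positivity : 0 ≤ Om / 5)
          linarith
        rw [← sq_abs (DD A w Om y t)]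
        have := pow_le_pow_left₀ (by positivity : 0 ≤ Om / 5) h4 2
        rw [show Om ^ 2 / 25 = (Om / 5) ^ 2 by ring]
        exact this
      -- Dy / J
      have hinv : 0 < (JJ A w y t)⁻¹ := by positivity
      have hinv2 : (JJ A w y t)⁻¹ ≤ 4 / 3 := by
        rw [inv_le_comm₀ hj0 (by norm_num)]; linarith
      have hDyJ : -(20 * Om) ≤ Dy A w Om y t / JJ A w y t := by
        have e : Dy A w Om y t / JJ A w y t = -(uu' Om y * ((JJ A w y t)⁻¹ ^ 2))
            + uu Om y * Jy A w y t * (JJ A w y t)⁻¹ ^ 3 - Jyy A w y t * ((JJ A w y t)⁻¹ ^ 3 / 2)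
            + Jy A w y t ^ 2 * (JJ A w y t)⁻¹ ^ 4 := by
          unfold Dy; field_simp
        rw [e, hu']
        set r := (JJ A w y t)⁻¹
        have r2 : r ^ 2 ≤ 2 := (pow_le_pow_left₀ hinv.le hinv2 2).trans (by norm_num)
        have r3 : r ^ 3 ≤ 3 := (pow_le_pow_left₀ hinv.le hinv2 3).trans (by norm_num)
        have r30 : 0 < r ^ 3 := by positivity
        have t1 : Om / 2 * r ^ 2 ≤ Om / 2 * 2 :=
          mul_le_mul_of_nonneg_left r2 (by positivity)
        have t2 : |uu Om y * Jy A w y t * r ^ 3| ≤ (7 / 2 * Om * (1 / 4)) * 3 := by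
          apply abs_mul_le (abs_mul_le hub2 jy)
          rw [abs_of_pos r30]; exact r3
        have t3 : |Jyy A w y t * (r ^ 3 / 2)| ≤ 1 / 4 * (3 / 2) := by
          apply abs_mul_le jyy
          rw [abs_of_pos (by positivity)]; linarith
        have t4 : 0 ≤ Jy A w y t ^ 2 * r ^ 4 := by positivity
        have t2' := abs_le.1 t2
        have t3' := abs_le.1 t3
        linarith [t2'.1, t3'.2]
      have q1 : |aa'' A w t * E1 y| ≤ 64 * M * Om * M := abs_mul_le (baa2 t) m1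
      have hsq : ∀ x : ℝ, |x| ≤ M → |x ^ 2| ≤ M ^ 2 := by
        intro x hx; rw [abs_pow]; exact pow_le_pow_left₀ (abs_nonneg _) hx 2
      have q2 : |aa A w t * aa'' A w t * e1 y ^ 2| ≤ A * (64 * M * Om) * M ^ 2 :=
        abs_mul_le (abs_mul_le (baa t) (baa2 t)) (hsq _ m2)
      have q3 : |cc'' A w t * E2 y| ≤ 2 * Om * M := abs_mul_le (bcc2 t) n1
      have q4 : |cc A w t * cc'' A w t * e2 y ^ 2| ≤ A / 128 * (2 * Om) * M ^ 2 :=
        abs_mul_le (abs_mul_le (bcc t) (bcc2 t)) (hsq _ n2)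
      have q1' := (abs_le.1 q1).2
      have q2' := (abs_le.1 q2).2
      have q3' := (abs_le.1 q3).2
      have q4' := (abs_le.1 q4).2
      have s2 : A * (64 * M * Om) * M ^ 2 = 8 * Om * M ^ 2 := by
        have : A * (64 * M * Om) * M ^ 2 = (A * M) * 64 * Om * M ^ 2 := by ring
        rw [this, hAM]; ring
      have s4 : A / 128 * (2 * Om) * M ^ 2 ≤ Om * M ^ 2 := by
        have h0 : 0 ≤ Om * M ^ 2 := by positivity
        have h1 : A / 64 * (Om * M ^ 2) ≤ 1 * (Om * M ^ 2) :=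
          mul_le_mul_of_nonneg_right (by linarith) h0
        rw [show A / 128 * (2 * Om) * M ^ 2 = A / 64 * (Om * M ^ 2) by ring]
        linarith
      have hMsq : 1 ≤ M ^ 2 := one_le_pow₀ hM1
      have hMM : M ≤ M ^ 2 := le_self_pow₀ hM1 (by norm_num)
      have hOmM : Om * M ≤ Om * M ^ 2 := mul_le_mul_of_nonneg_left hMM hOm0.le
      have hOm1 : Om * 1 ≤ Om * M ^ 2 := mul_le_mul_of_nonneg_left hMsq hOm0.le
      have hfin : Om ^ 2 / 25 = 400 * (Om * M ^ 2) := by rw [hOm]; ring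
      have hone : 1 ≤ Om * M ^ 2 := by linarith
      rw [hfin] at hDD
      linarith
    · -- outer region
      rw [VL_eq]
      obtain ⟨a1, a2, a3, a4, a5⟩ := far1 (y := y) (by linarith)
      obtain ⟨b1, b2, b3, b4, b5⟩ := far2 (y := y) (by linarith)
      have hJ1 : JJ A w y t = 1 := by unfold JJ; rw [a3, b3]; ring
      have hJy0 : Jy A w y t = 0 := by unfold Jy; rw [a4, b4]; ring
      have hJyy0 : Jyy A w y t = 0 := by unfold Jyy; rw [a5, b5]; ring
      unfold DD Dy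
      rw [hJ1, hJy0, hJyy0, a1, a2, b1, b2]
      have := static_nonneg (Om := Om) (by linarith) (z := y) (by linarith)
      have e : ((-uu Om y - 0 / (2 * 1)) / 1) ^ 2
        + (-uu' Om y / 1 + uu Om y * 0 / 1 ^ 2 - 0 / (2 * 1 ^ 2) + 0 ^ 2 / 1 ^ 3) / 1 - 1
        - 1 / 2 * (aa'' A w t * 0) - 1 / 4 * (aa A w t * aa'' A w t * 0 ^ 2)
        - 1 / 2 * (cc'' A w t * 0) - 1 / 4 * (cc A w t * cc'' A w t * 0 ^ 2)
        = uu Om y ^ 2 - uu' Om y - 1 := by ring
      rw [e]; exact this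
  · rw [core 0 0 (by norm_num)]
    have : Om ^ 2 * 0 ^ 2 / 4 + Om / 2 - 1 + 32 * M * Om * (Real.sin (w * 0) * 0) = Om / 2 - 1 := by
      ring
    rw [this]
    linarith

end

section
/-! ### assembly -/

abbrev EE := EuclideanSpace ℝ (Fin 1)

def pr : EE →L[ℝ] ℝ := EuclideanSpace.proj (0 : Fin 1)

lemma pr_apply (x : EE) : pr x = x 0 := rfl

lemma norm_pr (x : EE) : |pr x| = ‖x‖ := by
  rw [EuclideanSpace.norm_eq, pr_apply]
  simp [Real.sqrt_sq_eq_abs]

lemma laplacian_pr {φ : ℝ → ℂ} (hφ : ContDiff ℝ ∞ φ) (x : EE) :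
    (Δ (fun y : EE => φ (pr y))) x = deriv (deriv φ) (pr x) := by
  rw [InnerProductSpace.laplacian_eq_iteratedFDeriv_orthonormalBasis _
    (EuclideanSpace.basisFun (Fin 1) ℝ)]
  have h := ContinuousLinearMap.iteratedFDeriv_comp_right pr (hφ.of_le (m := 2) (by norm_cast)) x
    (i := 2) (by norm_cast)
  have h' : iteratedFDeriv ℝ 2 (fun y : EE => φ (pr y)) x
    = (iteratedFDeriv ℝ 2 φ (pr x)).compContinuousLinearMap fun _ => pr := h
  simp only [Finset.univ_unique, Fin.default_eq_zero, Finset.sum_singleton, h',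
    ContinuousMultilinearMap.compContinuousLinearMap_apply]
  have h2 : (fun i => pr ((![(EuclideanSpace.basisFun (Fin 1) ℝ) 0,
      (EuclideanSpace.basisFun (Fin 1) ℝ) 0] : Fin 2 → EE) i)) = fun _ : Fin 2 => (1 : ℝ) := by
    ext i
    fin_cases i <;> simp [pr_apply]
  rw [h2, ← iteratedDeriv_eq_iteratedFDeriv, iteratedDeriv_succ, iteratedDeriv_one]

lemma memLp_h : MemLp (fun x : EE => (1 + ‖x‖)⁻¹) 2 volume := by
  have hm : AEStronglyMeasurable (fun x : EE => (1 + ‖x‖)⁻¹) volume :=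
    (Continuous.inv₀ (by fun_prop) (fun x => by positivity)).aestronglyMeasurable
  rw [memLp_two_iff_integrable_sq hm]
  have h := integrable_one_add_norm (E := EE) (μ := volume) (r := 2) (by simp)
  refine h.congr (Eventually.of_forall fun x => ?_)
  simp only
  rw [Real.rpow_neg (by positivity), inv_pow]
  norm_cast

lemma exp_le (r : ℝ) (hr : 0 ≤ r) : Real.exp (-r) ≤ 4 * ((1 + r)⁻¹) ^ 2 := by
  have h1 : 1 + r / 2 ≤ Real.exp (r / 2) := by linarith [Real.add_one_le_exp (r / 2)]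
  have h2 : Real.exp r = Real.exp (r / 2) ^ 2 := by rw [← Real.exp_nat_mul]; congr 1; push_cast; ring
  have h3 : (1 + r) ^ 2 / 4 ≤ Real.exp r := by
    rw [h2]
    have : (1 + r / 2) ^ 2 ≤ Real.exp (r / 2) ^ 2 := pow_le_pow_left₀ (by positivity) h1 2
    nlinarith
  rw [Real.exp_neg, inv_pow, ← div_eq_mul_inv, inv_eq_one_div, div_le_div_iff₀ (Real.exp_pos r) (by positivity)]
  linarith

lemma eLpNorm_bd {f : EE → ℂ} {K : ℝ} (hf : ∀ x, ‖f x‖ ≤ K * (1 + ‖x‖)⁻¹) :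
    eLpNorm f 2 volume ≤ ENNReal.ofReal K * eLpNorm (fun x : EE => (1 + ‖x‖)⁻¹) 2 volume := by
  apply eLpNorm_le_mul_eLpNorm_of_ae_le_mul (Eventually.of_forall fun x => ?_)
  have := hf x
  rwa [Real.norm_eq_abs, abs_of_nonneg (by positivity : (0 : ℝ) ≤ (1 + ‖x‖)⁻¹)]


lemma smooth_psi {A w : ℝ} (hJ : ∀ y t, 1 / 2 ≤ JJ A w y t) (hX : ∀ y t, |XX A w y t - y| ≤ 1)
    (Om : ℝ) : ContDiff ℝ ∞ (fun p : ℝ × ℝ => psi hJ hX Om p.1 p.2) := by
  have hY : ContDiff ℝ ∞ (fun p : ℝ × ℝ => ((YY hJ hX p.1 p.2, p.2) : ℝ × ℝ)) :=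
    (YY_smooth hJ hX).prodMk contDiff_snd
  have h1 : ContDiff ℝ ∞ ((fun p : ℝ × ℝ => gg A w Om p.1 p.2) ∘
      (fun p : ℝ × ℝ => ((YY hJ hX p.1 p.2, p.2) : ℝ × ℝ))) := (gg_smooth hJ).comp hY
  have h2 : ContDiff ℝ ∞ ((fun p : ℝ × ℝ => Th A w p.1 p.2) ∘
      (fun p : ℝ × ℝ => ((YY hJ hX p.1 p.2, p.2) : ℝ × ℝ))) := Th_smooth.comp hY
  have h3 : ContDiff ℝ ∞ (fun p : ℝ × ℝ => ((gg A w Om (YY hJ hX p.1 p.2) p.2 : ℝ) : ℂ)) :=
    Complex.ofRealCLM.contDiff.comp h1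
  have h4 : ContDiff ℝ ∞ (fun p : ℝ × ℝ => ((Th A w (YY hJ hX p.1 p.2) p.2 : ℝ) : ℂ)) :=
    Complex.ofRealCLM.contDiff.comp h2
  exact (h3.add (contDiff_const.mul h4)).cexp

lemma smooth_VV {A w : ℝ} (hJ : ∀ y t, 1 / 2 ≤ JJ A w y t) (hX : ∀ y t, |XX A w y t - y| ≤ 1)
    (Om : ℝ) : ContDiff ℝ ∞ (fun p : ℝ × ℝ => VV hJ hX Om p.1 p.2) := by
  have hY : ContDiff ℝ ∞ (fun p : ℝ × ℝ => ((YY hJ hX p.1 p.2, p.2) : ℝ × ℝ)) :=
    (YY_smooth hJ hX).prodMk contDiff_snd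
  have h1 : ContDiff ℝ ∞ ((fun p : ℝ × ℝ => VL A w Om p.1 p.2) ∘
      (fun p : ℝ × ℝ => ((YY hJ hX p.1 p.2, p.2) : ℝ × ℝ))) := (VL_smooth hJ).comp hY
  exact h1

/-- outside `[-14, 14]` the potential vanishes -/
lemma VV_far {A w : ℝ} (hJ : ∀ y t, 1 / 2 ≤ JJ A w y t) (hX : ∀ y t, |XX A w y t - y| ≤ 1)
    (Om : ℝ) {x : ℝ} (hx : 14 < |x|) (t : ℝ) : VV hJ hX Om x t = 0 := by
  obtain ⟨a1, a2, a3, a4, a5⟩ := far1 (y := x) (by linarith)
  obtain ⟨b1, b2, b3, b4, b5⟩ := far2 (y := x) (by linarith)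
  have hXX : XX A w x t = x := by unfold XX; rw [a2, b2]; ring
  have hY : YY hJ hX x t = x := YY_eq hJ hX hXX
  unfold VV
  rw [hY, VL_eq]
  have hJ1 : JJ A w x t = 1 := by unfold JJ; rw [a3, b3]; ring
  have hJy0 : Jy A w x t = 0 := by unfold Jy; rw [a4, b4]; ring
  have hJyy0 : Jyy A w x t = 0 := by unfold Jyy; rw [a5, b5]; ring
  unfold DD Dy
  rw [hJ1, hJy0, hJyy0, a1, a2, b1, b2]
  have := static_zero Om hx
  have e : ((-uu Om x - 0 / (2 * 1)) / 1) ^ 2
    + (-uu' Om x / 1 + uu Om x * 0 / 1 ^ 2 - 0 / (2 * 1 ^ 2) + 0 ^ 2 / 1 ^ 3) / 1 - 1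
    - 1 / 2 * (aa'' A w t * 0) - 1 / 4 * (aa A w t * aa'' A w t * 0 ^ 2)
    - 1 / 2 * (cc'' A w t * 0) - 1 / 4 * (cc A w t * cc'' A w t * 0 ^ 2)
    = uu Om x ^ 2 - uu' Om x - 1 := by ring
  rw [e]; exact this

lemma periodic_aa {A w : ℝ} (hw : 0 < w) (t : ℝ) :
    aa A w (t + 2 * Real.pi / w) = aa A w t ∧ aa' A w (t + 2 * Real.pi / w) = aa' A w t ∧
    aa'' A w (t + 2 * Real.pi / w) = aa'' A w t ∧ cc A w (t + 2 * Real.pi / w) = cc A w t ∧
    cc' A w (t + 2 * Real.pi / w) = cc' A w t ∧ cc'' A w (t + 2 * Real.pi / w) = cc'' A w t := by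
  have h1 : w * (t + 2 * Real.pi / w) = w * t + 2 * Real.pi := by field_simp
  have h2 : 2 * w * (t + 2 * Real.pi / w) = 2 * w * t + 2 * Real.pi + 2 * Real.pi := by
    field_simp; ring
  unfold aa aa' aa'' cc cc' cc''
  rw [h1, h2]
  simp only [Real.sin_add_two_pi, Real.cos_add_two_pi, and_self]

lemma VV_periodic {A w : ℝ} (hw : 0 < w) (hJ : ∀ y t, 1 / 2 ≤ JJ A w y t)
    (hX : ∀ y t, |XX A w y t - y| ≤ 1) (Om x t : ℝ) :
    VV hJ hX Om x (t + 2 * Real.pi / w) = VV hJ hX Om x t := by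
  obtain ⟨p1, p2, p3, p4, p5, p6⟩ := periodic_aa (A := A) hw t
  have hXX : XX A w (YY hJ hX x t) (t + 2 * Real.pi / w) = x := by
    have := XX_YY hJ hX x t
    unfold XX at this ⊢
    rw [p1, p4]; exact this
  have hY : YY hJ hX x (t + 2 * Real.pi / w) = YY hJ hX x t := YY_eq hJ hX hXX
  unfold VV
  rw [hY]
  unfold VL DD Dy Xt Tht JJ Jy Jyy
  rw [p1, p2, p3, p4, p5, p6]

lemma psi_bound {A w Om : ℝ} (hJ : ∀ y t, 1 / 2 ≤ JJ A w y t) (hX : ∀ y t, |XX A w y t - y| ≤ 1)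
    (hOm : 4 ≤ Om) : ∃ C : ℝ, 0 ≤ C ∧ ∀ x t, ‖psi hJ hX Om x t‖ ≤ C * Real.exp (-|x|) := by
  obtain ⟨C, hC⟩ := GG_bound hOm
  refine ⟨Real.exp (C + 2), (Real.exp_pos _).le, fun x t => ?_⟩
  unfold psi
  rw [Complex.norm_exp, ← Real.exp_add]
  apply Real.exp_le_exp.2
  simp only [Complex.add_re, Complex.ofReal_re, Complex.mul_re, Complex.I_re, zero_mul,
    Complex.I_im, Complex.ofReal_im, mul_zero, sub_self, add_zero]
  unfold gg
  have h1 := hC (YY hJ hX x t)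
  have h2 := hX (YY hJ hX x t) t
  rw [XX_YY] at h2
  have h3 : |x| ≤ |YY hJ hX x t| + 1 := by
    have := abs_sub_abs_le_abs_sub x (YY hJ hX x t)
    linarith
  have h4 : Real.log (1 / 2) ≤ Real.log (JJ A w (YY hJ hX x t) t) :=
    Real.log_le_log (by norm_num) (hJ _ _)
  have h5 : -1 ≤ Real.log (1 / 2) := by
    rw [one_div, Real.log_inv]
    have := Real.log_two_lt_d9
    linarith
  linarith

end

section
section final

variable {A w : ℝ} (hJ : ∀ y t, 1 / 2 ≤ JJ A w y t) (hX : ∀ y t, |XX A w y t - y| ≤ 1) (Om : ℝ)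

/-- the potential on `ℝ¹ × ℝ` -/
def Vf (z : EE × ℝ) : ℝ := VV hJ hX Om (pr z.1) z.2

/-- the wave function on `ℝ¹` -/
def psif (t : ℝ) (x : EE) : ℂ := psi hJ hX Om (pr x) t

lemma pr2_smooth : ContDiff ℝ ∞ (fun z : EE × ℝ => ((pr z.1, z.2) : ℝ × ℝ)) :=
  (pr.contDiff.comp contDiff_fst).prodMk contDiff_snd

lemma Vf_smooth : ContDiff ℝ ∞ (Vf hJ hX Om) := by
  have h : ContDiff ℝ ∞ ((fun p : ℝ × ℝ => VV hJ hX Om p.1 p.2) ∘
    (fun z : EE × ℝ => ((pr z.1, z.2) : ℝ × ℝ))) := (smooth_VV hJ hX Om).comp pr2_smooth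
  exact h

lemma psif_smooth : ContDiff ℝ ∞ (fun z : EE × ℝ => psif hJ hX Om z.2 z.1) := by
  have h : ContDiff ℝ ∞ ((fun p : ℝ × ℝ => psi hJ hX Om p.1 p.2) ∘
    (fun z : EE × ℝ => ((pr z.1, z.2) : ℝ × ℝ))) := (smooth_psi hJ hX Om).comp pr2_smooth
  exact h

lemma Vf_far (x : EE) (hx : 14 < ‖x‖) (t : ℝ) : Vf hJ hX Om (x, t) = 0 :=
  VV_far hJ hX Om (by rw [norm_pr]; exact hx) t

lemma Vf_periodic (hw : 0 < w) (z : EE × ℝ) :
    Vf hJ hX Om (z + (0, 2 * Real.pi / w)) = Vf hJ hX Om z := by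
  obtain ⟨x, t⟩ := z
  have := VV_periodic hw hJ hX Om (pr x) t
  simpa [Vf] using this

lemma Vf_bdd (hw : 0 < w) (k : ℕ) : ∃ C : ℝ, ∀ z, ‖iteratedFDeriv ℝ k (Vf hJ hX Om) z‖ ≤ C := by
  set T := 2 * Real.pi / w with hT
  have hT0 : 0 < T := by positivity
  have hcont : Continuous (iteratedFDeriv ℝ k (Vf hJ hX Om)) :=
    (Vf_smooth hJ hX Om).continuous_iteratedFDeriv (by exact_mod_cast le_top)
  obtain ⟨K, hK⟩ := ((isCompact_closedBall (0 : EE) 14).prod
    (isCompact_Icc (a := (0 : ℝ)) (b := T))).exists_bound_of_continuousOn hcont.continuousOn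
  refine ⟨max K 0, ?_⟩
  rintro ⟨x, t⟩
  rcases le_or_gt ‖x‖ 14 with hx | hx
  · have hp : Function.Periodic (fun s => ‖iteratedFDeriv ℝ k (Vf hJ hX Om) (x, s)‖) T := by
      intro s
      have h1 := iteratedFDeriv_comp_add_right (𝕜 := ℝ) (f := Vf hJ hX Om) k ((0 : EE), T) (x, s)
      have h2 : (fun z => Vf hJ hX Om (z + ((0 : EE), T))) = Vf hJ hX Om :=
        funext (Vf_periodic hJ hX Om hw)
      rw [h2] at h1
      simp only [Prod.mk_add_mk, add_zero] at h1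
      simp only [h1]
    obtain ⟨s, hs, hs'⟩ := hp.exists_mem_Ico₀ hT0 t
    have := hK (x, s) ⟨by simpa using hx, ⟨hs.1, hs.2.le⟩⟩
    rw [hs']
    exact this.trans (le_max_left _ _)
  · have hz : iteratedFDeriv ℝ k (Vf hJ hX Om) (x, t) = 0 := by
      by_contra hne
      have h1 : (x, t) ∈ Function.support (iteratedFDeriv ℝ k (Vf hJ hX Om)) := hne
      have h2 := support_iteratedFDeriv_subset k h1
      have h3 : tsupport (Vf hJ hX Om) ⊆ {z : EE × ℝ | ‖z.1‖ ≤ 14} := by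
        apply closure_minimal
        · intro z hz
          by_contra hc
          rw [Set.mem_ofPred_eq, not_le] at hc
          have hv : Vf hJ hX Om (z.1, z.2) = 0 := Vf_far hJ hX Om z.1 hc z.2
          exact (Function.mem_support.1 hz) hv
        · exact isClosed_le (by fun_prop) continuous_const
      have h4 := h3 h2
      rw [Set.mem_ofPred_eq] at h4
      exact absurd h4 (not_le.2 hx)
    rw [hz, norm_zero]; exact le_max_right _ _

lemma Vf_localized (hw : 0 < w) (N : ℕ) :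
    ∃ C : ℝ, ∀ x t, |Vf hJ hX Om (x, t)| ≤ C / jap x ^ N := by
  obtain ⟨K, hK⟩ := Vf_bdd hJ hX Om hw 0
  refine ⟨K * Real.sqrt (1 + 14 ^ 2) ^ N, fun x t => ?_⟩
  have hK0 : 0 ≤ K := (norm_nonneg _).trans (hK 0)
  have hj : 0 < jap x := Real.sqrt_pos.2 (by positivity)
  rw [le_div_iff₀ (by positivity)]
  rcases le_or_gt ‖x‖ 14 with hx | hx
  · have h1 : |Vf hJ hX Om (x, t)| ≤ K := by
      have := hK (x, t)
      rwa [norm_iteratedFDeriv_zero] at this
    have h2 : jap x ≤ Real.sqrt (1 + 14 ^ 2) := by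
      apply Real.sqrt_le_sqrt
      have := norm_nonneg x
      nlinarith
    exact mul_le_mul h1 (pow_le_pow_left₀ hj.le h2 N) (by positivity) hK0
  · rw [Vf_far hJ hX Om x hx t]; simp only [abs_zero, zero_mul]; positivity

lemma Vf_zero : Vf hJ hX Om (0, 0) = VL A w Om 0 0 := by
  have h0 : XX A w 0 0 = 0 := by
    unfold XX aa cc
    have := (core2 (y := 0) (by norm_num)).2.1
    rw [this]; simp
  have hY : YY hJ hX 0 0 = 0 := YY_eq hJ hX h0
  simp only [Vf, map_zero, VV, hY]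

lemma psif_schrodinger (t : ℝ) (x : EE) : Complex.I * deriv (fun s => psif hJ hX Om s x) t
    = -(Δ (psif hJ hX Om t)) x + (Vf hJ hX Om (x, t) : ℂ) * psif hJ hX Om t x := by
  have hz : ContDiff ℝ ∞ (fun z : ℝ => ((z, t) : ℝ × ℝ)) := contDiff_id.prodMk contDiff_const
  have hs : ContDiff ℝ ∞ ((fun p : ℝ × ℝ => psi hJ hX Om p.1 p.2) ∘
    (fun z : ℝ => ((z, t) : ℝ × ℝ))) := (smooth_psi hJ hX Om).comp hz
  have h1 := laplacian_pr hs x
  have h2 := schrodinger (Om := Om) hJ hX (pr x) t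
  simp only [Function.comp_def] at h1
  unfold psif Vf
  rw [h1, h2]

end final

end

section
lemma admissible_Vf {A w : ℝ} (hJ : ∀ y t, 1 / 2 ≤ JJ A w y t)
    (hX : ∀ y t, |XX A w y t - y| ≤ 1) (Om : ℝ) (hw : 0 < w)
    (hpos : ∀ y t, 0 ≤ VL A w Om y t) (hne : VL A w Om 0 0 ≠ 0) :
    Admissible 1 (Vf hJ hX Om) := by
  refine ⟨Vf_smooth hJ hX Om, Vf_bdd hJ hX Om hw, fun z => hpos _ _, ⟨(0, 0), ?_⟩,
    Vf_localized hJ hX Om hw⟩
  rw [Vf_zero]; exact hne

section l2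

variable {ψ : ℝ → EE → ℂ} {C : ℝ} (hC0 : 0 ≤ C) (hb : ∀ t x, ‖ψ t x‖ ≤ C * Real.exp (-‖x‖))
  (hψ : Continuous (fun z : EE × ℝ => ψ z.2 z.1))

include hC0 hb in
lemma bd1 (t : ℝ) (x : EE) : ‖ψ t x‖ ≤ (4 * C) * (1 + ‖x‖)⁻¹ := by
  have h1 := exp_le ‖x‖ (norm_nonneg x)
  have h2 : (1 + ‖x‖)⁻¹ ≤ 1 := inv_le_one_of_one_le₀ (by linarith [norm_nonneg x])
  have h3 : 0 < (1 + ‖x‖)⁻¹ := by positivity
  have h4 : ((1 + ‖x‖)⁻¹) ^ 2 ≤ (1 + ‖x‖)⁻¹ := by nlinarith
  calc ‖ψ t x‖ ≤ C * Real.exp (-‖x‖) := hb t x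
    _ ≤ C * (4 * ((1 + ‖x‖)⁻¹) ^ 2) := by gcongr
    _ ≤ C * (4 * (1 + ‖x‖)⁻¹) := by gcongr
    _ = (4 * C) * (1 + ‖x‖)⁻¹ := by ring

include hC0 hb in
lemma bd2 (t : ℝ) (x : EE) :
    ‖((jap x ^ (1 : ℝ) : ℝ) : ℂ) * ψ t x‖ ≤ (4 * C) * (1 + ‖x‖)⁻¹ := by
  have hj : jap x ≤ 1 + ‖x‖ := by
    unfold jap
    rw [Real.sqrt_le_left (by positivity)]
    nlinarith [norm_nonneg x]
  have hj0 : 0 ≤ jap x := Real.sqrt_nonneg _
  rw [Real.rpow_one, norm_mul, Complex.norm_real, Real.norm_eq_abs, abs_of_nonneg hj0]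
  have h1 := exp_le ‖x‖ (norm_nonneg x)
  calc jap x * ‖ψ t x‖ ≤ (1 + ‖x‖) * (C * Real.exp (-‖x‖)) :=
        mul_le_mul hj (hb t x) (norm_nonneg _) (by positivity)
    _ ≤ (1 + ‖x‖) * (C * (4 * ((1 + ‖x‖)⁻¹) ^ 2)) := by gcongr
    _ = (4 * C) * (1 + ‖x‖)⁻¹ := by field_simp

lemma hfin : eLpNorm (fun x : EE => (1 + ‖x‖)⁻¹) 2 volume < ⊤ := memLp_h.2

include hψ in
lemma cont1 (t : ℝ) : Continuous (ψ t) := by
  have h : Continuous ((fun z : EE × ℝ => ψ z.2 z.1) ∘ (fun x : EE => ((x, t) : EE × ℝ))) :=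
    hψ.comp (by fun_prop)
  exact h

include hψ in
lemma cont2 (x : EE) : Continuous (fun t => ψ t x) := by
  have h : Continuous ((fun z : EE × ℝ => ψ z.2 z.1) ∘ (fun t : ℝ => ((x, t) : EE × ℝ))) :=
    hψ.comp (by fun_prop)
  exact h

include hC0 hb hψ in
lemma memLp1 (t : ℝ) : MemLp (ψ t) 2 volume :=
  ⟨(cont1 hψ t).aestronglyMeasurable,
    (eLpNorm_bd (bd1 hC0 hb t)).trans_lt (ENNReal.mul_lt_top ENNReal.ofReal_lt_top hfin)⟩

include hC0 hb hψ in
lemma tendsto1 (t₀ : ℝ) : Tendsto (fun t => eLpNorm (ψ t - ψ t₀) 2 volume) (𝓝 t₀) (𝓝 0) := by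
  have hrw : ∀ f : EE → ℂ, eLpNorm f 2 volume = (∫⁻ x, ‖f x‖ₑ ^ (2 : ℝ)) ^ (1 / 2 : ℝ) := by
    intro f
    rw [eLpNorm_eq_lintegral_rpow_enorm_toReal (by norm_num) (by norm_num)]
    norm_num
  simp only [hrw]
  have h0 : (0 : ℝ≥0∞) = (∫⁻ _ : EE, 0) ^ (1 / 2 : ℝ) := by
    rw [lintegral_zero, ENNReal.zero_rpow_of_pos (by norm_num)]
  rw [h0]
  apply Tendsto.ennrpow_const
  apply tendsto_lintegral_filter_of_dominated_convergence
    (fun x : EE => ‖(8 * C) * (1 + ‖x‖)⁻¹‖ₑ ^ (2 : ℝ))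
  · filter_upwards with t
    have : Continuous (ψ t - ψ t₀) := (cont1 hψ t).sub (cont1 hψ t₀)
    exact (this.enorm.measurable).pow_const _
  · filter_upwards with t
    filter_upwards with x
    gcongr
    rw [← ofReal_norm, ← ofReal_norm]
    apply ENNReal.ofReal_le_ofReal
    rw [Real.norm_eq_abs, abs_of_nonneg (by positivity)]
    calc ‖(ψ t - ψ t₀) x‖ ≤ ‖ψ t x‖ + ‖ψ t₀ x‖ := norm_sub_le _ _
      _ ≤ (4 * C) * (1 + ‖x‖)⁻¹ + (4 * C) * (1 + ‖x‖)⁻¹ :=
        add_le_add (bd1 hC0 hb t x) (bd1 hC0 hb t₀ x)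
      _ = (8 * C) * (1 + ‖x‖)⁻¹ := by ring
  · have h1 : MemLp (fun x : EE => (8 * C) * (1 + ‖x‖)⁻¹) 2 volume := memLp_h.const_mul (8 * C)
    have h2 := h1.2
    rw [eLpNorm_eq_lintegral_rpow_enorm_toReal (by norm_num) (by norm_num)] at h2
    intro hc
    simp only [ENNReal.toReal_ofNat] at h2
    rw [hc, ENNReal.top_rpow_of_pos (by norm_num)] at h2
    exact lt_irrefl _ h2
  · filter_upwards with x
    have h1 : Tendsto (fun t => ψ t x - ψ t₀ x) (𝓝 t₀) (𝓝 0) := by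
      have h0 := ((cont2 hψ x).tendsto t₀).sub_const (ψ t₀ x)
      rwa [sub_self] at h0
    have h2 := h1.enorm
    rw [enorm_zero] at h2
    have h3 := h2.ennrpow_const (2 : ℝ)
    rw [ENNReal.zero_rpow_of_pos (by norm_num)] at h3
    exact h3

end l2

theorem result : ∃ n : ℕ, 1 ≤ n ∧ ∃ V : EuclideanSpace ℝ (Fin n) × ℝ → ℝ, Admissible n V ∧
    ∃ ψ : ℝ → EuclideanSpace ℝ (Fin n) → ℂ, IsBoundState n V ψ := by
  obtain ⟨A, w, Om, hJ, hX, hw, hOm, hpos, hne⟩ := exists_params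
  obtain ⟨C, hC0, hC⟩ := psi_bound hJ hX hOm
  have hb : ∀ t x, ‖psif hJ hX Om t x‖ ≤ C * Real.exp (-‖x‖) := by
    intro t x
    have := hC (pr x) t
    rw [norm_pr] at this
    exact this
  have hcont := (psif_smooth hJ hX Om).continuous
  refine ⟨1, le_rfl, Vf hJ hX Om, admissible_Vf hJ hX Om hw hpos hne, psif hJ hX Om, ?_⟩
  refine ⟨⟨psif_smooth hJ hX Om, memLp1 hC0 hb hcont, tendsto1 hC0 hb hcont,
    psif_schrodinger hJ hX Om⟩, ⟨0, ?_⟩, ?_⟩
  · intro h
    have h1 : psif hJ hX Om 0 = 0 := by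
      have hz : Continuous (0 : EE → ℂ) := continuous_const
      exact ((cont1 hcont 0).ae_eq_iff_eq volume hz).1 h
    have h2 := congrFun h1 0
    exact Complex.exp_ne_zero _ h2
  · refine ⟨1, one_pos, Real.toNNReal (4 * C) *
      (eLpNorm (fun x : EE => (1 + ‖x‖)⁻¹) 2 volume).toNNReal, fun t => ?_⟩
    have h := eLpNorm_bd (bd2 hC0 hb t)
    rw [ENNReal.coe_mul, ENNReal.coe_toNNReal hfin.ne]
    exact h

end

end

end Pool.Agent.Results.MP_4efd05_mp.PositiveTrap
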